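import Mathlib

set_option autoImplicit false

/-! Distance to the nearest integer and the exponential `e(x) = exp(2πix)`. -/

namespace Pool.Agent.H252R3

/-- The distance from a real number to the nearest integer. -/
noncomputable def nint (x : ℝ) : ℝ := |x - round x|

lemma nint_nonneg (x : ℝ) : 0 ≤ nint x := abs_nonneg _

lemma nint_le_half (x : ℝ) : nint x ≤ 1 / 2 := abs_sub_round x

lemma nint_le (x : ℝ) (m : ℤ) : nint x ≤ |x - m| := round_le x m

lemma nint_le_abs (x : ℝ) : nint x ≤ |x| := by simpa using nint_le x 0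

lemma nint_zero : nint 0 = 0 := le_antisymm (by simpa using nint_le_abs 0) (nint_nonneg 0)

lemma nint_add_le (x y : ℝ) : nint (x + y) ≤ nint x + nint y := by
  refine (nint_le (x + y) (round x + round y)).trans ?_
  have : x + y - ((round x + round y : ℤ) : ℝ) = (x - round x) + (y - round y) := by
    push_cast; ring
  rw [this]
  exact abs_add_le _ _

lemma nint_add_int (x : ℝ) (m : ℤ) : nint (x + m) = nint x := by
  simp [nint, round_add_intCast]

lemma nint_int_add (x : ℝ) (m : ℤ) : nint (m + x) = nint x := by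
  rw [add_comm, nint_add_int]

lemma nint_neg (x : ℝ) : nint (-x) = nint x := by
  apply le_antisymm
  · refine (nint_le (-x) (-round x)).trans (le_of_eq ?_)
    have : -x - ((-round x : ℤ) : ℝ) = -(x - round x) := by push_cast; ring
    rw [this, abs_neg]; rfl
  · refine (nint_le x (-round (-x))).trans (le_of_eq ?_)
    have : x - ((-round (-x) : ℤ) : ℝ) = -(-x - round (-x)) := by push_cast; ring
    rw [this, abs_neg]; rfl

lemma nint_sum_le {ι : Type*} (s : Finset ι) (f : ι → ℝ) :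
    nint (∑ i ∈ s, f i) ≤ ∑ i ∈ s, nint (f i) := by
  classical
  induction s using Finset.induction_on with
  | empty => simp [nint_zero]
  | insert a s ha ih =>
    rw [Finset.sum_insert ha, Finset.sum_insert ha]
    exact (nint_add_le _ _).trans (by linarith)

/-- `e(x) = exp(2πix)`. -/
noncomputable def ee (x : ℝ) : ℂ := Complex.exp (Complex.I * ((2 * Real.pi * x : ℝ) : ℂ))

lemma norm_ee (x : ℝ) : ‖ee x‖ = 1 := by
  rw [ee, mul_comm]
  exact Complex.norm_exp_ofReal_mul_I _

lemma ee_add (x y : ℝ) : ee (x + y) = ee x * ee y := by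
  rw [ee, ee, ee, ← Complex.exp_add]
  congr 1
  push_cast
  ring

lemma ee_zero : ee 0 = 1 := by simp [ee]

lemma ee_neg (x : ℝ) : ee (-x) = (starRingEnd ℂ) (ee x) := by
  rw [ee, ee, ← Complex.exp_conj]
  congr 1
  rw [map_mul, Complex.conj_I, Complex.conj_ofReal]
  push_cast
  ring

lemma ee_sum {ι : Type*} (s : Finset ι) (f : ι → ℝ) :
    ee (∑ i ∈ s, f i) = ∏ i ∈ s, ee (f i) := by
  classical
  induction s using Finset.induction_on with
  | empty => simp [ee_zero]
  | insert a s ha ih => rw [Finset.sum_insert ha, Finset.prod_insert ha, ee_add, ih]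

lemma ee_natCast_mul (k : ℕ) (x : ℝ) : ee (k * x) = ee x ^ k := by
  induction k with
  | zero => simp [ee_zero]
  | succ k ih => rw [pow_succ, ← ih, ← ee_add]; congr 1; push_cast; ring

lemma two_nint_le_abs_sin (x : ℝ) : 2 * nint x ≤ |Real.sin (Real.pi * x)| := by
  obtain ⟨r, hr⟩ : ∃ r : ℝ, r = x - round x := ⟨_, rfl⟩
  have hx : x = r + round x := by rw [hr]; ring
  have h1 : |Real.sin (Real.pi * x)| = |Real.sin (Real.pi * r)| := by
    rw [hx]
    have h2 : Real.pi * (r + (round (r + round x) : ℤ)) = Real.pi * r + (round (r + round x) : ℤ) * Real.pi := by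
      ring
    have h3 : Real.pi * (r + (round x : ℤ)) = Real.pi * r + (round x : ℤ) * Real.pi := by ring
    rw [h3, Real.sin_add_int_mul_pi, abs_mul]
    simp [abs_zpow]
  have h2 : nint x = |r| := by rw [nint, hr]
  rw [h1, h2]
  have hr1 : |r| ≤ 1 / 2 := by rw [hr]; exact abs_sub_round x
  have h3 : |Real.sin (Real.pi * r)| = Real.sin (Real.pi * |r|) := by
    have h4 : |Real.pi * r| = Real.pi * |r| := by
      rw [abs_mul, abs_of_pos Real.pi_pos]
    rw [← h4, Real.abs_sin_eq_sin_abs_of_abs_le_pi]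
    rw [h4]
    nlinarith [Real.pi_pos, abs_nonneg r]
  rw [h3]
  have h5 := Real.mul_le_sin (x := Real.pi * |r|) (by positivity) (by nlinarith [Real.pi_pos])
  have h6 : 2 / Real.pi * (Real.pi * |r|) = 2 * |r| := by
    field_simp
  rw [h6] at h5
  exact h5

lemma norm_ee_sub_one (x : ℝ) : ‖ee x - 1‖ = 2 * |Real.sin (Real.pi * x)| := by
  rw [ee, Complex.norm_exp_I_mul_ofReal_sub_one, Real.norm_eq_abs, abs_mul,
    abs_of_pos (by norm_num : (0 : ℝ) < 2)]
  congr 3
  ring

lemma four_nint_le (x : ℝ) : 4 * nint x ≤ ‖ee x - 1‖ := by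
  rw [norm_ee_sub_one]
  linarith [two_nint_le_abs_sin x]

lemma norm_one_add_ee_sq (x : ℝ) : ‖1 + ee x‖ ^ 2 = 4 - 4 * Real.sin (Real.pi * x) ^ 2 := by
  have h1 : ‖1 + ee x‖ ^ 2 + ‖ee x - 1‖ ^ 2 = 4 := by
    have h2 := parallelogram_law_with_norm ℝ (1 : ℂ) (ee x)
    have h3 : ‖(1 : ℂ) - ee x‖ = ‖ee x - 1‖ := norm_sub_rev _ _
    rw [h3, norm_ee] at h2
    simp only [norm_one] at h2
    nlinarith
  rw [norm_ee_sub_one, mul_pow, sq_abs] at h1
  linarith

lemma norm_one_add_ee_le (x : ℝ) : ‖1 + ee x‖ ≤ 2 * Real.exp (-2 * nint x ^ 2) := by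
  have h1 := norm_one_add_ee_sq x
  have h2 := two_nint_le_abs_sin x
  have h3 : (2 * nint x) ^ 2 ≤ Real.sin (Real.pi * x) ^ 2 := by
    rw [← sq_abs (Real.sin _)]
    exact pow_le_pow_left₀ (by linarith [nint_nonneg x]) h2 2
  have h4 : ‖1 + ee x‖ ^ 2 ≤ 4 * (1 - 4 * nint x ^ 2) := by rw [h1]; nlinarith
  have h5 : 1 - 4 * nint x ^ 2 ≤ Real.exp (-(4 * nint x ^ 2)) := Real.one_sub_le_exp_neg _
  have h6 : ‖1 + ee x‖ ^ 2 ≤ (2 * Real.exp (-2 * nint x ^ 2)) ^ 2 := by
    rw [mul_pow, ← Real.exp_nat_mul]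
    refine h4.trans ?_
    have h7 : (((2 : ℕ) : ℝ) * (-2 * nint x ^ 2)) = -(4 * nint x ^ 2) := by push_cast; ring
    rw [h7]
    linarith
  exact le_of_sq_le_sq h6 (by positivity)

end Pool.Agent.H252R3
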