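import Mathlib

set_option autoImplicit false

/-! Zero-sum subsets in `(ZMod k) ^ r` (van Emde Boas, Kruyswijk, Meshulam). -/

namespace Pool.Agent.H252R3

lemma exists_hit (k : ℕ) [NeZero k] {ι X : Type*} [DecidableEq ι] (I : Finset ι) (Ξ : Finset X)
    (f : X → ι → ZMod k) :
    ∃ a : ι → ZMod k, ((Ξ.filter fun x => ∀ i ∈ I, f x i ≠ a i).card : ℝ) ≤
      Ξ.card * (1 - 1 / (k : ℝ)) ^ I.card := by
  classical
  have hk : (0 : ℝ) < k := by exact_mod_cast Nat.pos_of_ne_zero (NeZero.ne k)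
  induction I using Finset.induction_on with
  | empty => exact ⟨fun _ => 0, by simp⟩
  | insert i I hi ih =>
    obtain ⟨a, ha⟩ := ih
    set Y := Ξ.filter fun x => ∀ j ∈ I, f x j ≠ a j with hY
    -- most popular value
    obtain ⟨v, hv⟩ : ∃ v : ZMod k, (Y.card : ℝ) / k ≤ ((Y.filter fun x => f x i = v).card : ℝ) := by
      by_contra hcon
      push Not at hcon
      have h1 : ∑ v : ZMod k, ((Y.filter fun x => f x i = v).card : ℝ) = Y.card := by
        rw [← Nat.cast_sum]
        congr 1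
        exact (Finset.card_eq_sum_card_fiberwise (f := fun x => f x i) (t := Finset.univ)
          (fun x _ => Finset.mem_coe.mpr (Finset.mem_univ _))).symm
      have h2 : ∑ v : ZMod k, ((Y.filter fun x => f x i = v).card : ℝ) <
          ∑ _v : ZMod k, (Y.card : ℝ) / k :=
        Finset.sum_lt_sum_of_nonempty Finset.univ_nonempty fun v _ => hcon v
      rw [h1, Finset.sum_const, Finset.card_univ, ZMod.card, nsmul_eq_mul,
        mul_div_cancel₀ _ hk.ne'] at h2
      exact lt_irrefl _ h2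
    refine ⟨Function.update a i v, ?_⟩
    have h3 : (Ξ.filter fun x => ∀ j ∈ insert i I, f x j ≠ Function.update a i v j) =
        Y.filter fun x => ¬ f x i = v := by
      ext x
      simp only [hY, Finset.mem_filter, Finset.mem_insert, forall_eq_or_imp,
        Function.update_self, ne_eq]
      constructor
      · rintro ⟨h4, h5, h6⟩
        refine ⟨⟨h4, fun j hj => ?_⟩, h5⟩
        have := h6 j hj
        rwa [Function.update_of_ne (by rintro rfl; exact hi hj)] at this
      · rintro ⟨⟨h4, h5⟩, h6⟩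
        refine ⟨h4, h6, fun j hj => ?_⟩
        rw [Function.update_of_ne (by rintro rfl; exact hi hj)]
        exact h5 j hj
    rw [h3, Finset.card_insert_of_notMem hi, pow_succ]
    have h4 : ((Y.filter fun x => f x i = v).card : ℝ) + ((Y.filter fun x => ¬ f x i = v).card : ℝ)
        = Y.card := by
      exact_mod_cast Finset.card_filter_add_card_filter_not (s := Y) (fun x => f x i = v)
    have h5 : ((Y.filter fun x => ¬ f x i = v).card : ℝ) ≤ Y.card * (1 - 1 / k) := by
      have : (Y.card : ℝ) * (1 - 1 / k) = Y.card - Y.card / k := by ring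
      rw [this]
      linarith
    have hk1 : (1 : ℝ) ≤ k := by exact_mod_cast Nat.pos_of_ne_zero (NeZero.ne k)
    have h6 : (0 : ℝ) ≤ 1 - 1 / k := by
      rw [sub_nonneg, div_le_one hk]; exact hk1
    calc ((Y.filter fun x => ¬ f x i = v).card : ℝ) ≤ Y.card * (1 - 1 / k) := h5
      _ ≤ (Ξ.card * (1 - 1 / (k : ℝ)) ^ I.card) * (1 - 1 / k) := by gcongr
      _ = Ξ.card * ((1 - 1 / (k : ℝ)) ^ I.card * (1 - 1 / k)) := by ring

lemma addChar_map_sum {A R ι : Type*} [AddCommGroup A] [CommRing R] (ψ : AddChar A R)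
    (s : Finset ι) (f : ι → A) : ψ (∑ i ∈ s, f i) = ∏ i ∈ s, ψ (f i) := by
  classical
  induction s using Finset.induction_on with
  | empty => simp
  | insert a s ha ih =>
    rw [Finset.sum_insert ha, Finset.prod_insert ha, AddChar.map_add_eq_mul, ih]

lemma exists_zero_sum (k r : ℕ) (hk : 1 ≤ k) {ι : Type*} (I : Finset ι)
    (g : ι → Fin r → ZMod k) (hI : k ^ 2 * r + 1 ≤ I.card) :
    ∃ S ⊆ I, S.Nonempty ∧ ∑ i ∈ S, g i = 0 := by
  classical
  have : NeZero k := ⟨by omega⟩
  by_contra hcon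
  push Not at hcon
  have hk0 : (0 : ℝ) < k := by exact_mod_cast hk
  obtain ⟨a, ha⟩ := exists_hit k I (Finset.univ : Finset (Fin r → ZMod k))
    (fun ξ i => ∑ l, ξ l * g i l)
  -- no character survives
  have h1 : ((Finset.univ : Finset (Fin r → ZMod k)).card : ℝ) * (1 - 1 / (k : ℝ)) ^ I.card < 1 := by
    rw [Finset.card_univ, Fintype.card_fun, Fintype.card_fin, ZMod.card]
    push_cast
    have h2 : (0 : ℝ) ≤ 1 - 1 / k := by
      rw [sub_nonneg, div_le_one hk0]; exact_mod_cast hk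
    have h3 : 1 - 1 / (k : ℝ) ≤ Real.exp (-(1 / k)) := Real.one_sub_le_exp_neg _
    have h4 : (1 - 1 / (k : ℝ)) ^ I.card ≤ Real.exp (-(I.card / k)) := by
      refine (pow_le_pow_left₀ h2 h3 _).trans (le_of_eq ?_)
      rw [← Real.exp_nat_mul]
      congr 1
      ring
    have h5 : (k : ℝ) ^ r ≤ Real.exp (k * r) := by
      have h6 : (k : ℝ) ≤ Real.exp k := by linarith [Real.add_one_le_exp (k : ℝ)]
      refine (pow_le_pow_left₀ hk0.le h6 r).trans (le_of_eq ?_)
      rw [← Real.exp_nat_mul]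
      congr 1
      ring
    have h7 : (k : ℝ) * r < I.card / k := by
      rw [lt_div_iff₀ hk0]
      have : ((k ^ 2 * r + 1 : ℕ) : ℝ) ≤ I.card := by exact_mod_cast hI
      push_cast at this
      nlinarith
    calc (k : ℝ) ^ r * (1 - 1 / (k : ℝ)) ^ I.card
        ≤ Real.exp (k * r) * Real.exp (-(I.card / k)) := by gcongr
      _ = Real.exp (k * r - I.card / k) := by rw [← Real.exp_add]; congr 1
      _ < 1 := by rw [Real.exp_lt_one_iff]; linarith
  have h2 : ∀ ξ : Fin r → ZMod k, ∃ i ∈ I, ∑ l, ξ l * g i l = a i := by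
    have h4 := lt_of_le_of_lt ha h1
    rw [Nat.cast_lt_one, Finset.card_eq_zero, Finset.filter_eq_empty_iff] at h4
    intro ξ
    have h5 := h4 (Finset.mem_univ ξ)
    push Not at h5
    exact h5
  set ψ : AddChar (ZMod k) ℂ := ZMod.stdAddChar with hψ
  have hprim : ψ.IsPrimitive := ZMod.isPrimitive_stdAddChar k
  -- the sum over all characters of the product vanishes
  have h3 : ∑ ξ : Fin r → ZMod k, ∏ i ∈ I, (ψ (a i) - ψ (∑ l, ξ l * g i l)) = 0 := by
    apply Finset.sum_eq_zero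
    intro ξ _
    obtain ⟨i, hi, h4⟩ := h2 ξ
    exact Finset.prod_eq_zero hi (by rw [h4, sub_self])
  -- orthogonality
  have h4 : ∀ S ∈ I.powerset, S ≠ ∅ →
      ∑ ξ : Fin r → ZMod k, ∏ i ∈ S, ψ (∑ l, ξ l * g i l) = 0 := by
    intro S hS hne
    have h5 := hcon S (Finset.mem_powerset.mp hS) (Finset.nonempty_iff_ne_empty.mpr hne)
    obtain ⟨l₀, hl₀⟩ : ∃ l, (∑ i ∈ S, g i) l ≠ 0 := by
      by_contra h6
      push Not at h6
      exact h5 (funext h6)
    have h6 : ∀ ξ : Fin r → ZMod k, ∏ i ∈ S, ψ (∑ l, ξ l * g i l) =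
        ∏ l, ψ (ξ l * (∑ i ∈ S, g i) l) := by
      intro ξ
      rw [← addChar_map_sum, ← addChar_map_sum, Finset.sum_comm]
      congr 1
      refine Finset.sum_congr rfl fun l _ => ?_
      rw [Finset.sum_apply, Finset.mul_sum]
    simp_rw [h6]
    rw [← Fintype.prod_sum (fun l (x : ZMod k) => ψ (x * (∑ i ∈ S, g i) l))]
    apply Finset.prod_eq_zero (Finset.mem_univ l₀)
    rw [AddChar.sum_mulShift _ hprim, if_neg hl₀, Nat.cast_zero]
  have h5 : ∑ ξ : Fin r → ZMod k, ∏ i ∈ I, (ψ (a i) - ψ (∑ l, ξ l * g i l)) =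
      (k : ℂ) ^ r * ∏ i ∈ I, ψ (a i) := by
    simp_rw [Finset.prod_sub]
    rw [Finset.sum_comm]
    rw [Finset.sum_eq_single ∅]
    · simp [Finset.card_univ, ZMod.card]
    · intro S hS hne
      rw [← Finset.mul_sum, h4 S hS hne, mul_zero]
    · intro h
      exact absurd (Finset.empty_mem_powerset I) h
  rw [h3] at h5
  have h6 : (k : ℂ) ^ r * ∏ i ∈ I, ψ (a i) ≠ 0 := by
    apply mul_ne_zero
    · exact pow_ne_zero _ (by exact_mod_cast (by omega : k ≠ 0))
    · exact Finset.prod_ne_zero_iff.mpr fun i _ => (AddChar.val_isUnit ψ (a i)).ne_zero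
  exact h6 h5.symm

end Pool.Agent.H252R3
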