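import Pool.Agent.H252R3.Circ

set_option autoImplicit false

/-! If no value `F ω` is close to an integer, some exponential sum `∑ e(k F ω)` is large. -/

namespace Pool.Agent.H252R3

lemma norm_geom_le {x η : ℝ} (hη : 0 < η) (hx : η ≤ nint x) (K : ℕ) :
    ‖∑ k ∈ Finset.range K, ee (k * x)‖ ≤ 1 / (2 * η) := by
  have h1 : (∑ k ∈ Finset.range K, ee (k * x)) * (ee x - 1) = ee x ^ K - 1 := by
    simp_rw [ee_natCast_mul]
    exact geom_sum_mul (ee x) K
  have h2 : ‖∑ k ∈ Finset.range K, ee (k * x)‖ * ‖ee x - 1‖ ≤ 2 := by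
    rw [← norm_mul, h1]
    refine (norm_sub_le _ _).trans ?_
    rw [norm_pow, norm_ee, one_pow, norm_one]
    norm_num
  have h3 := four_nint_le x
  have h4 : ‖∑ k ∈ Finset.range K, ee (k * x)‖ * (4 * η) ≤ 2 := by
    refine le_trans ?_ h2
    gcongr
    linarith
  rw [le_div_iff₀ (by positivity)]
  linarith

lemma ee_mul_conj (x y : ℝ) : ee x * (starRingEnd ℂ) (ee y) = ee (x - y) := by
  rw [← ee_neg, ← ee_add, sub_eq_add_neg]

lemma exists_large_sum {Ω : Type*} (s : Finset Ω) (hs : s.Nonempty) (F : Ω → ℝ) {η : ℝ}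
    (hη : 0 < η) (hF : ∀ ω ∈ s, η ≤ nint (F ω)) (K : ℕ) (hK : 1 / (2 * η ^ 2) ≤ K) :
    ∃ k : ℕ, 1 ≤ k ∧ k < K ∧ (s.card : ℝ) / (2 * K) ≤ ‖∑ ω ∈ s, ee (k * F ω)‖ := by
  by_contra hcon
  push Not at hcon
  have hK0 : (0 : ℝ) < K := lt_of_lt_of_le (by positivity) hK
  have hs0 : (0 : ℝ) < s.card := by exact_mod_cast hs.card_pos
  -- the square mean
  have h1 : ∑ ω ∈ s, (‖∑ k ∈ Finset.range K, ee (k * F ω)‖ ^ 2 : ℝ) ≤ s.card * (K / 2) := by
    have h2 : ∀ ω ∈ s, ‖∑ k ∈ Finset.range K, ee (k * F ω)‖ ^ 2 ≤ (K : ℝ) / 2 := by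
      intro ω hω
      have h3 := norm_geom_le hη (hF ω hω) K
      calc ‖∑ k ∈ Finset.range K, ee (k * F ω)‖ ^ 2 ≤ (1 / (2 * η)) ^ 2 := by gcongr
        _ = (1 / (2 * η ^ 2)) / 2 := by field_simp
        _ ≤ (K : ℝ) / 2 := by gcongr
    refine (Finset.sum_le_sum h2).trans (le_of_eq ?_)
    rw [Finset.sum_const, nsmul_eq_mul]
  have h2 : ((∑ ω ∈ s, (‖∑ k ∈ Finset.range K, ee (k * F ω)‖ ^ 2 : ℝ) : ℝ) : ℂ) =
      ∑ k ∈ Finset.range K, ∑ l ∈ Finset.range K, ∑ ω ∈ s, ee (((k : ℝ) - l) * F ω) := by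
    push_cast
    have h3 : ∀ ω ∈ s, ((‖∑ k ∈ Finset.range K, ee (k * F ω)‖ : ℂ) ^ 2) =
        ∑ k ∈ Finset.range K, ∑ l ∈ Finset.range K, ee (((k : ℝ) - l) * F ω) := by
      intro ω _
      rw [← Complex.mul_conj', map_sum, Finset.sum_mul_sum]
      refine Finset.sum_congr rfl fun k _ => Finset.sum_congr rfl fun l _ => ?_
      rw [ee_mul_conj]
      congr 1
      ring
    rw [Finset.sum_congr rfl h3, Finset.sum_comm]
    refine Finset.sum_congr rfl fun k _ => ?_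
    rw [Finset.sum_comm]
  -- the diagonal
  have h3 : ∀ k ∈ Finset.range K, ∑ l ∈ Finset.range K, ∑ ω ∈ s, ee (((k : ℝ) - l) * F ω) =
      s.card + ∑ l ∈ (Finset.range K).erase k, ∑ ω ∈ s, ee (((k : ℝ) - l) * F ω) := by
    intro k hk
    rw [← Finset.add_sum_erase _ _ hk]
    congr 1
    simp [ee_zero]
  rw [Finset.sum_congr rfl h3, Finset.sum_add_distrib, Finset.sum_const, Finset.card_range,
    nsmul_eq_mul] at h2
  -- off-diagonal terms
  have h4 : ∀ k ∈ Finset.range K, ∀ l ∈ (Finset.range K).erase k,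
      ‖∑ ω ∈ s, ee (((k : ℝ) - l) * F ω)‖ ≤ (s.card : ℝ) / (2 * K) := by
    intro k hk l hl
    rw [Finset.mem_range] at hk
    rw [Finset.mem_erase, Finset.mem_range] at hl
    rcases lt_or_gt_of_ne hl.1 with h | h
    · have h5 := (hcon (k - l) (by omega) (by omega)).le
      rwa [Nat.cast_sub h.le] at h5
    · have h5 := (hcon (l - k) (by omega) (by omega)).le
      rw [Nat.cast_sub h.le] at h5
      have h6 : ∑ ω ∈ s, ee (((k : ℝ) - l) * F ω) =
          (starRingEnd ℂ) (∑ ω ∈ s, ee (((l : ℝ) - k) * F ω)) := by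
        rw [map_sum]
        refine Finset.sum_congr rfl fun ω _ => ?_
        rw [← ee_neg]
        congr 1
        ring
      rw [h6, Complex.norm_conj]
      exact h5
  have h5 : ‖∑ k ∈ Finset.range K, ∑ l ∈ (Finset.range K).erase k,
      ∑ ω ∈ s, ee (((k : ℝ) - l) * F ω)‖ ≤ K * ((K - 1) * ((s.card : ℝ) / (2 * K))) := by
    refine (norm_sum_le _ _).trans ?_
    have h6 : ∀ k ∈ Finset.range K, ‖∑ l ∈ (Finset.range K).erase k,
        ∑ ω ∈ s, ee (((k : ℝ) - l) * F ω)‖ ≤ (K - 1) * ((s.card : ℝ) / (2 * K)) := by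
      intro k hk
      refine (norm_sum_le _ _).trans ((Finset.sum_le_sum (h4 k hk)).trans (le_of_eq ?_))
      rw [Finset.sum_const, nsmul_eq_mul, Finset.card_erase_of_mem hk, Finset.card_range]
      have : 1 ≤ K := by
        rw [Finset.mem_range] at hk; omega
      push_cast [Nat.cast_sub this]
      ring
    refine (Finset.sum_le_sum h6).trans (le_of_eq ?_)
    rw [Finset.sum_const, nsmul_eq_mul, Finset.card_range]
  have h6 : (K : ℝ) * s.card ≤ s.card * (K / 2) + K * ((K - 1) * ((s.card : ℝ) / (2 * K))) := by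
    have h7 : ((K : ℂ) * s.card) = ((∑ ω ∈ s, (‖∑ k ∈ Finset.range K, ee (k * F ω)‖ ^ 2 : ℝ) : ℝ) : ℂ)
        - ∑ k ∈ Finset.range K, ∑ l ∈ (Finset.range K).erase k,
          ∑ ω ∈ s, ee (((k : ℝ) - l) * F ω) := by
      rw [h2]; ring
    have h8 : ‖((K : ℂ) * s.card)‖ = (K : ℝ) * s.card := by
      rw [norm_mul, Complex.norm_natCast, Complex.norm_natCast]
    rw [← h8, h7]
    refine (norm_sub_le _ _).trans (add_le_add ?_ h5)
    rw [Complex.norm_real, Real.norm_of_nonneg (Finset.sum_nonneg fun ω _ => by positivity)]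
    exact h1
  have h7 : (K : ℝ) * ((K - 1) * ((s.card : ℝ) / (2 * K))) = (K - 1) * s.card / 2 := by
    field_simp
  rw [h7] at h6
  nlinarith

end Pool.Agent.H252R3
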