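import Pool.Agent.H252R3.Weyl
import Pool.Agent.H252R3.Dav

set_option autoImplicit false

/-! Small values of quadratic forms in variables restricted to `0` and `1`. -/

namespace Pool.Agent.H252R3

lemma iterate {A : ℕ → ℕ → ℝ} (hA : ∀ i j, A i j = A j i) {η : ℝ} (hη : 0 < η) (K m : ℕ)
    (hK : 1 / (2 * η ^ 2) ≤ K) (hm : 8 * K ^ 2 ≤ m) {δ : ℝ} (hδ : 0 < δ) (R : ℕ) :
    ∀ U : Finset ℕ, (R : ℝ) * (m + Real.log (8 * K ^ 2) / (2 * δ ^ 2)) ≤ U.card →
      (∀ S ⊆ U, S.Nonempty → η ≤ nint (FF A S)) →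
      ∃ (w : ℕ → Finset ℕ) (k : ℕ → ℕ),
        (∀ r < R, k r < K ∧ 1 ≤ k r ∧ w r ⊆ U ∧ (w r).Nonempty ∧ (w r).card ≤ m) ∧
        ∀ r s, r < s → s < R → Disjoint (w r) (w s) ∧
          ∀ i ∈ w s, nint (2 * k r * BB A (w r) {i}) ≤ δ := by
  have hK0 : (0 : ℝ) < K := lt_of_lt_of_le (by positivity) hK
  have hK1 : (1 : ℝ) ≤ K := by exact_mod_cast (by exact_mod_cast hK0 : 0 < K)
  have hlog : 0 ≤ Real.log (8 * K ^ 2) / (2 * δ ^ 2) := by
    apply div_nonneg _ (by positivity)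
    apply Real.log_nonneg
    nlinarith
  induction R with
  | zero => exact fun U _ _ => ⟨fun _ => ∅, fun _ => 0, by simp, by simp⟩
  | succ R ih =>
    intro U hU hF
    push_cast at hU
    have hm0 : (0 : ℝ) ≤ m := by positivity
    have hU1 : m ≤ U.card := by
      have : (m : ℝ) ≤ U.card := by
        have h1 : (0 : ℝ) ≤ R * (m + Real.log (8 * K ^ 2) / (2 * δ ^ 2)) := by positivity
        linarith
      exact_mod_cast this
    obtain ⟨k₀, hk1, hkK, w₀, U', hwU, hwne, hwm, hU'U, hdis, hcard, hnear⟩ :=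
      weyl_step' hA hη K m hK hm hδ U hU1 hF
    obtain ⟨w, k, h1, h2⟩ := ih U' (by linarith) (fun S hS => hF S (hS.trans hU'U))
    refine ⟨fun r => Nat.casesOn r w₀ w, fun r => Nat.casesOn r k₀ k, ?_, ?_⟩
    · intro r hr
      cases r with
      | zero => exact ⟨hkK, hk1, hwU, hwne, hwm⟩
      | succ r =>
        obtain ⟨a1, a2, a3, a4, a5⟩ := h1 r (by omega)
        exact ⟨a1, a2, a3.trans hU'U, a4, a5⟩
    · intro r s hrs hs
      cases s with
      | zero => omega
      | succ s =>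
        cases r with
        | zero =>
          obtain ⟨a1, a2, a3, a4, a5⟩ := h1 s (by omega)
          exact ⟨hdis.mono_right a3, fun i hi => hnear i (a3 hi)⟩
        | succ r => exact h2 r s (by omega) (by omega)

lemma groups (k T₀ : ℕ) (hk : 1 ≤ k) (c : ℕ → ℕ → ZMod k) (T : ℕ) : T ≤ T₀ →
    ∀ I : Finset ℕ, T * (k ^ 2 * T₀ + 1) ≤ I.card →
      ∃ G : ℕ → Finset ℕ, (∀ b < T, G b ⊆ I ∧ (G b).Nonempty) ∧
        ∀ a b, a < b → b < T → Disjoint (G a) (G b) ∧ ∑ i ∈ G a, ∑ j ∈ G b, c i j = 0 := by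
  induction T with
  | zero => exact fun _ I _ => ⟨fun _ => ∅, by simp, by simp⟩
  | succ T ih =>
    intro hT I hI
    obtain ⟨I₁, hI₁, hcard⟩ := Finset.exists_subset_card_eq
      (by nlinarith : T * (k ^ 2 * T₀ + 1) ≤ I.card)
    obtain ⟨G, hG1, hG2⟩ := ih (by omega) I₁ hcard.ge
    have h2 : k ^ 2 * T + 1 ≤ (I \ I₁).card := by
      rw [Finset.card_sdiff_of_subset hI₁, hcard]
      have h3 : k ^ 2 * T ≤ k ^ 2 * T₀ := Nat.mul_le_mul_left _ (by omega)
      have h4 : (T + 1) * (k ^ 2 * T₀ + 1) = T * (k ^ 2 * T₀ + 1) + (k ^ 2 * T₀ + 1) := by ring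
      omega
    obtain ⟨S, hS, hSne, hS0⟩ := exists_zero_sum k T hk (I \ I₁)
      (fun j (a : Fin T) => ∑ i ∈ G a, c i j) h2
    refine ⟨fun b => if b = T then S else G b, ?_, ?_⟩
    · intro b hb
      by_cases h : b = T
      · simp only [h, if_true]
        exact ⟨hS.trans Finset.sdiff_subset, hSne⟩
      · simp only [h, if_false]
        obtain ⟨a1, a2⟩ := hG1 b (by omega)
        exact ⟨a1.trans hI₁, a2⟩
    · intro a b hab hb
      have ha : a ≠ T := by omega
      simp only [ha, if_false]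
      by_cases h : b = T
      · simp only [h, if_true]
        obtain ⟨a1, a2⟩ := hG1 a (by omega)
        refine ⟨Disjoint.mono a1 hS Finset.disjoint_sdiff, ?_⟩
        have h5 := congrFun hS0 ⟨a, by omega⟩
        rw [Finset.sum_apply] at h5
        simp only [Pi.zero_apply] at h5
        rw [Finset.sum_comm]
        exact h5
      · simp only [h, if_false]
        exact hG2 a b hab (by omega)

lemma BB_biUnion {A : ℕ → ℕ → ℝ} (w : ℕ → Finset ℕ) (G H : Finset ℕ)
    (hG : (G : Set ℕ).PairwiseDisjoint w) (hH : (H : Set ℕ).PairwiseDisjoint w) :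
    BB A (G.biUnion w) (H.biUnion w) = ∑ i ∈ G, ∑ j ∈ H, BB A (w i) (w j) := by
  simp only [BB]
  rw [Finset.sum_biUnion hG]
  refine Finset.sum_congr rfl fun i _ => ?_
  have h1 : ∑ x ∈ w i, ∑ y ∈ H.biUnion w, A x y = ∑ x ∈ w i, ∑ j ∈ H, ∑ y ∈ w j, A x y :=
    Finset.sum_congr rfl fun x _ => Finset.sum_biUnion hH
  rw [h1, Finset.sum_comm]

/-- Cross terms between two groups. -/
lemma cross_le {A : ℕ → ℕ → ℝ} {k : ℕ} (hk : 1 ≤ k) (w : ℕ → Finset ℕ) (G H : Finset ℕ)
    (hG : (G : Set ℕ).PairwiseDisjoint w) (hH : (H : Set ℕ).PairwiseDisjoint w) {ε : ℝ}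
    (hnear : ∀ i ∈ G, ∀ j ∈ H, nint (2 * k * BB A (w i) (w j)) ≤ ε)
    (hzero : ∑ i ∈ G, ∑ j ∈ H, ((round (2 * k * BB A (w i) (w j)) : ℤ) : ZMod k) = 0) :
    nint (2 * BB A (G.biUnion w) (H.biUnion w)) ≤ G.card * H.card * ε := by
  have hk0 : (0 : ℝ) < k := by exact_mod_cast hk
  have hk1 : (1 : ℝ) ≤ k := by exact_mod_cast hk
  obtain ⟨M, hM⟩ : (k : ℤ) ∣ ∑ i ∈ G, ∑ j ∈ H, round (2 * k * BB A (w i) (w j)) := by
    rw [← ZMod.intCast_zmod_eq_zero_iff_dvd]
    push_cast
    exact hzero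
  rw [BB_biUnion w G H hG hH]
  have h1 : 2 * ∑ i ∈ G, ∑ j ∈ H, BB A (w i) (w j) =
      (∑ i ∈ G, ∑ j ∈ H, (2 * k * BB A (w i) (w j) - round (2 * k * BB A (w i) (w j))) / k)
        + (M : ℤ) := by
    have h2 : ((∑ i ∈ G, ∑ j ∈ H, round (2 * k * BB A (w i) (w j)) : ℤ) : ℝ) / k = M := by
      rw [hM]; push_cast; field_simp
    rw [← h2]
    push_cast
    rw [Finset.sum_div, ← Finset.sum_add_distrib, Finset.mul_sum]
    refine Finset.sum_congr rfl fun i _ => ?_
    rw [Finset.sum_div, ← Finset.sum_add_distrib, Finset.mul_sum]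
    refine Finset.sum_congr rfl fun j _ => ?_
    field_simp
    ring
  rw [h1, nint_add_int]
  refine (nint_le_abs _).trans ((Finset.abs_sum_le_sum_abs _ _).trans ?_)
  have h2 : ∀ i ∈ G, |∑ j ∈ H, (2 * k * BB A (w i) (w j) -
      round (2 * k * BB A (w i) (w j))) / k| ≤ H.card * ε := by
    intro i hi
    refine (Finset.abs_sum_le_sum_abs _ _).trans ?_
    rw [← nsmul_eq_mul]
    refine Finset.sum_le_card_nsmul _ _ _ fun j hj => ?_
    rw [abs_div, abs_of_pos hk0, div_le_iff₀ hk0]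
    have h3 := hnear i hi j hj
    have h4 := nint_nonneg (2 * k * BB A (w i) (w j))
    rw [nint] at h3 h4
    nlinarith
  refine (Finset.sum_le_card_nsmul _ _ _ h2).trans (le_of_eq ?_)
  rw [nsmul_eq_mul]
  ring

/-- The quadratic form on a union of consecutive blocks. -/
lemma FF_blocks {A : ℕ → ℕ → ℝ} (hA : ∀ i j, A i j = A j i) (W : ℕ → Finset ℕ) (T : ℕ)
    (hW : ∀ a b, a < b → b < T → Disjoint (W a) (W b)) {ε : ℝ} (hε : 0 ≤ ε)
    (hcross : ∀ a b, a < b → b < T → nint (2 * BB A (W a) (W b)) ≤ ε) (a b : ℕ) (hab : a ≤ b)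
    (hb : b ≤ T) :
    nint (FF A ((Finset.Ico a b).biUnion W) - ∑ c ∈ Finset.Ico a b, FF A (W c)) ≤ T ^ 2 * ε := by
  have key : ∀ b, a ≤ b → b ≤ T →
      nint (FF A ((Finset.Ico a b).biUnion W) - ∑ c ∈ Finset.Ico a b, FF A (W c)) ≤
        (b - a : ℝ) * (T * ε) := by
    intro b hab
    induction b, hab using Nat.le_induction with
    | base =>
      intro _
      simp [FF, BB, nint_zero]
    | succ b hab ih =>
      intro hbT
      have h1 := ih (by omega)
      rw [Nat.Ico_succ_right_eq_insert_Ico hab, Finset.biUnion_insert,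
        Finset.sum_insert (by simp)]
      have hdis : Disjoint (W b) ((Finset.Ico a b).biUnion W) := by
        rw [Finset.disjoint_biUnion_right]
        intro c hc
        rw [Finset.mem_Ico] at hc
        exact (hW c b hc.2 (by omega)).symm
      rw [FF_union hA hdis]
      have h2 : BB A (W b) ((Finset.Ico a b).biUnion W) =
          ∑ c ∈ Finset.Ico a b, BB A (W c) (W b) := by
        simp only [BB]
        rw [Finset.sum_comm, Finset.sum_biUnion]
        · refine Finset.sum_congr rfl fun c _ => Finset.sum_congr rfl fun i _ =>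
            Finset.sum_congr rfl fun j _ => hA _ _
        · intro c hc d hd hcd
          simp only [Finset.coe_Ico, Set.mem_Ico] at hc hd
          rcases lt_or_gt_of_ne hcd with h | h
          · exact hW c d h (by omega)
          · exact (hW d c h (by omega)).symm
      have h3 : FF A (W b) + FF A ((Finset.Ico a b).biUnion W) +
          2 * BB A (W b) ((Finset.Ico a b).biUnion W) -
          (FF A (W b) + ∑ c ∈ Finset.Ico a b, FF A (W c)) =
          (FF A ((Finset.Ico a b).biUnion W) - ∑ c ∈ Finset.Ico a b, FF A (W c)) +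
            ∑ c ∈ Finset.Ico a b, 2 * BB A (W c) (W b) := by
        rw [h2, ← Finset.mul_sum]; ring
      rw [h3]
      refine (nint_add_le _ _).trans ?_
      have h4 : nint (∑ c ∈ Finset.Ico a b, 2 * BB A (W c) (W b)) ≤ T * ε := by
        refine (nint_sum_le _ _).trans ?_
        refine (Finset.sum_le_card_nsmul _ _ ε fun c hc => ?_).trans ?_
        · rw [Finset.mem_Ico] at hc
          exact hcross c b hc.2 (by omega)
        · rw [nsmul_eq_mul, Nat.card_Ico]
          have : ((b - a : ℕ) : ℝ) ≤ T := by exact_mod_cast (by omega : b - a ≤ T)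
          gcongr
      push_cast
      linarith
  refine (key b hab hb).trans ?_
  have h1 : (b : ℝ) - a ≤ T := by
    have : (b : ℝ) ≤ T := by exact_mod_cast hb
    linarith [(by positivity : (0 : ℝ) ≤ (a : ℝ))]
  calc ((b : ℝ) - a) * (T * ε) ≤ T * (T * ε) := by gcongr
    _ = T ^ 2 * ε := by ring

/-- Dirichlet's pigeonhole principle for partial sums. -/
lemma exists_block (f : ℕ → ℝ) (T : ℕ) (hT : 1 ≤ T) :
    ∃ a b, a < b ∧ b ≤ T ∧ nint (∑ c ∈ Finset.Ico a b, f c) ≤ 1 / T := by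
  have hT0 : (0 : ℝ) < T := by exact_mod_cast hT
  set σ : ℕ → ℝ := fun n => ∑ c ∈ Finset.range n, f c with hσ
  have hmaps : ∀ n ∈ Finset.range (T + 1), ⌊Int.fract (σ n) * T⌋₊ ∈ Finset.range T := by
    intro n _
    rw [Finset.mem_range, Nat.floor_lt (by positivity)]
    nlinarith [Int.fract_lt_one (σ n)]
  obtain ⟨x, hx, y, hy, hxy, hf⟩ := Finset.exists_ne_map_eq_of_card_lt_of_maps_to
    (by simp : (Finset.range T).card < (Finset.range (T + 1)).card) hmaps
  wlog hlt : x < y generalizing x y with H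
  · exact H y hy x hx (Ne.symm hxy) hf.symm (by omega)
  refine ⟨x, y, hlt, by rw [Finset.mem_range] at hy; omega, ?_⟩
  have h1 : ∑ c ∈ Finset.Ico x y, f c = σ y - σ x := by
    rw [Finset.sum_Ico_eq_sub _ hlt.le]
  rw [h1]
  refine (nint_le _ (⌊σ y⌋ - ⌊σ x⌋)).trans ?_
  have h2 : σ y - σ x - ((⌊σ y⌋ - ⌊σ x⌋ : ℤ) : ℝ) = Int.fract (σ y) - Int.fract (σ x) := by
    simp only [Int.fract]; push_cast; ring
  rw [h2]
  have h3 := Nat.floor_le (show 0 ≤ Int.fract (σ x) * T by positivity)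
  have h4 := Nat.lt_floor_add_one (Int.fract (σ x) * T)
  have h5 := Nat.floor_le (show 0 ≤ Int.fract (σ y) * T by positivity)
  have h6 := Nat.lt_floor_add_one (Int.fract (σ y) * T)
  rw [hf] at h3 h4
  have h7 : |Int.fract (σ y) - Int.fract (σ x)| * T = |(Int.fract (σ y) - Int.fract (σ x)) * T| := by
    rw [abs_mul, abs_of_pos hT0]
  rw [le_div_iff₀ hT0, h7, abs_le]
  constructor <;> nlinarith

end Pool.Agent.H252R3
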