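import Pool.Agent.H508R3.SC

set_option autoImplicit false

namespace Pool.Agent.H252R3.SC3

open Matrix Filter Topology
open Pool.Agent.H508R3.SC

/-- sum of absolute values of the entries -/
def nr (A : M2) : ℝ := |A 0 0| + |A 0 1| + |A 1 0| + |A 1 1|

lemma nr_nonneg (A : M2) : 0 ≤ nr A := by unfold nr; positivity

lemma abs_le_nr (A : M2) (i j : Fin 2) : |A i j| ≤ nr A := by
  have h1 := abs_nonneg (A 0 0)
  have h2 := abs_nonneg (A 0 1)
  have h3 := abs_nonneg (A 1 0)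
  have h4 := abs_nonneg (A 1 1)
  unfold nr
  fin_cases i <;> fin_cases j <;> simp <;> linarith

lemma nr_add (A B : M2) : nr (A + B) ≤ nr A + nr B := by
  have h1 := abs_add_le (A 0 0) (B 0 0)
  have h2 := abs_add_le (A 0 1) (B 0 1)
  have h3 := abs_add_le (A 1 0) (B 1 0)
  have h4 := abs_add_le (A 1 1) (B 1 1)
  simp only [nr, Matrix.add_apply]
  linarith

lemma nr_neg (A : M2) : nr (-A) = nr A := by
  simp only [nr, Matrix.neg_apply, abs_neg]

lemma nr_sub_comm (A B : M2) : nr (A - B) = nr (B - A) := by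
  rw [← nr_neg, neg_sub]

lemma nr_smul (c : ℝ) (A : M2) : nr (c • A) = |c| * nr A := by
  simp only [nr, Matrix.smul_apply, smul_eq_mul, abs_mul]
  ring

lemma nr_transpose (A : M2) : nr Aᵀ = nr A := by
  simp only [nr, Matrix.transpose_apply]
  ring

lemma nr_adj (A : M2) : nr A.adjugate = nr A := by
  rw [Matrix.adjugate_fin_two]
  simp [nr]
  ring

lemma nr_mul (A B : M2) : nr (A * B) ≤ nr A * nr B := by
  have key : ∀ a b c d : ℝ, |a * b + c * d| ≤ |a| * |b| + |c| * |d| := by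
    intro a b c d
    have := abs_add_le (a * b) (c * d)
    rwa [abs_mul, abs_mul] at this
  have h1 := key (A 0 0) (B 0 0) (A 0 1) (B 1 0)
  have h2 := key (A 0 0) (B 0 1) (A 0 1) (B 1 1)
  have h3 := key (A 1 0) (B 0 0) (A 1 1) (B 1 0)
  have h4 := key (A 1 0) (B 0 1) (A 1 1) (B 1 1)
  simp only [nr, Matrix.mul_apply, Fin.sum_univ_two]
  have p1 : 0 ≤ |A 0 0| * |B 1 0| := by positivity
  have p2 : 0 ≤ |A 0 0| * |B 1 1| := by positivity
  have p3 : 0 ≤ |A 0 1| * |B 0 0| := by positivity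
  have p4 : 0 ≤ |A 0 1| * |B 0 1| := by positivity
  have p5 : 0 ≤ |A 1 0| * |B 1 0| := by positivity
  have p6 : 0 ≤ |A 1 0| * |B 1 1| := by positivity
  have p7 : 0 ≤ |A 1 1| * |B 0 0| := by positivity
  have p8 : 0 ≤ |A 1 1| * |B 0 1| := by positivity
  nlinarith

lemma nr_conj (A B : M2) : nr (A * B * Aᵀ) ≤ nr A ^ 2 * nr B := by
  have h1 := nr_mul (A * B) Aᵀ
  have h2 := nr_mul A B
  rw [nr_transpose] at h1
  have h3 := nr_nonneg A
  nlinarith

/-- discrete stability lemma -/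
lemma discrete (X P G : ℕ → M2) (J : ℕ) (hP0 : P 0 = 1) (hP : ∀ k, P (k+1) = X (k+1) * P k)
    (hdet : ∀ k, (X k).det = 1) (B ε : ℝ) (hB : ∀ k ≤ J, nr (P k) ≤ B)
    (hG : ∀ k < J, nr (X (k+1) * G k * (X (k+1))ᵀ - G (k+1)) ≤ ε) :
    nr (P J * G 0 * (P J)ᵀ - G J) ≤ B ^ 4 * (J * ε) := by
  have hPdet : ∀ k, (P k).det = 1 := by
    intro k
    induction k with
    | zero => rw [hP0]; simp
    | succ k ih => rw [hP, Matrix.det_mul, ih, hdet, one_mul]
  have hadj : ∀ A : M2, A.det = 1 → A * A.adjugate = 1 ∧ A.adjugate * A = 1 := by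
    intro A hA
    rw [Matrix.mul_adjugate, Matrix.adjugate_mul, hA]
    simp
  have hB0 : 0 ≤ B := le_trans (nr_nonneg _) (hB 0 (Nat.zero_le _))
  have main : ∀ k ≤ J, nr ((P k).adjugate * G k * ((P k).adjugate)ᵀ - G 0) ≤ B ^ 2 * (k * ε) := by
    intro k
    induction k with
    | zero =>
      intro _
      rw [hP0]
      simp [nr]
    | succ k ih =>
      intro hk
      have ih' := ih (by omega)
      have hGk := hG k (by omega)
      have e : (P (k+1)).adjugate * G (k+1) * ((P (k+1)).adjugate)ᵀ - G 0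
          = ((P k).adjugate * G k * ((P k).adjugate)ᵀ - G 0)
            + -((P (k+1)).adjugate * (X (k+1) * G k * (X (k+1))ᵀ - G (k+1)) *
                ((P (k+1)).adjugate)ᵀ) := by
        have e1 : (P (k+1)).adjugate * X (k+1) = (P k).adjugate := by
          rw [hP, Matrix.adjugate_mul_distrib, Matrix.mul_assoc, (hadj _ (hdet _)).2,
            Matrix.mul_one]
        have e2 : (X (k+1))ᵀ * ((P (k+1)).adjugate)ᵀ = ((P k).adjugate)ᵀ := by
          rw [← Matrix.transpose_mul, e1]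
        have e3 : (P (k+1)).adjugate * (X (k+1) * G k * (X (k+1))ᵀ) * ((P (k+1)).adjugate)ᵀ
            = (P k).adjugate * G k * ((P k).adjugate)ᵀ := by
          calc (P (k+1)).adjugate * (X (k+1) * G k * (X (k+1))ᵀ) * ((P (k+1)).adjugate)ᵀ
              = ((P (k+1)).adjugate * X (k+1)) * G k * ((X (k+1))ᵀ * ((P (k+1)).adjugate)ᵀ) := by
                simp only [Matrix.mul_assoc]
            _ = _ := by rw [e1, e2]
        rw [Matrix.mul_sub, Matrix.sub_mul, e3]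
        abel
      rw [e]
      have t1 := nr_add ((P k).adjugate * G k * ((P k).adjugate)ᵀ - G 0)
        (-((P (k+1)).adjugate * (X (k+1) * G k * (X (k+1))ᵀ - G (k+1)) *
                ((P (k+1)).adjugate)ᵀ))
      rw [nr_neg] at t1
      have t2 := nr_conj (P (k+1)).adjugate (X (k+1) * G k * (X (k+1))ᵀ - G (k+1))
      rw [nr_adj] at t2
      have t3 := hB (k+1) hk
      have t4 : nr (P (k+1)) ^ 2 ≤ B ^ 2 := by
        have := nr_nonneg (P (k+1))
        gcongr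
      have t5 : nr (P (k+1)) ^ 2 * nr (X (k+1) * G k * (X (k+1))ᵀ - G (k+1)) ≤ B ^ 2 * ε := by
        have := nr_nonneg (X (k+1) * G k * (X (k+1))ᵀ - G (k+1))
        gcongr
      push_cast
      nlinarith
  have mJ := main J le_rfl
  have e : P J * G 0 * (P J)ᵀ - G J
      = -(P J * ((P J).adjugate * G J * ((P J).adjugate)ᵀ - G 0) * (P J)ᵀ) := by
    have h1 := hadj _ (hPdet J)
    have e3 : P J * ((P J).adjugate * G J * ((P J).adjugate)ᵀ) * (P J)ᵀ = G J := by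
      calc P J * ((P J).adjugate * G J * ((P J).adjugate)ᵀ) * (P J)ᵀ
          = (P J * (P J).adjugate) * G J * (((P J).adjugate)ᵀ * (P J)ᵀ) := by
            simp only [Matrix.mul_assoc]
        _ = G J := by
            rw [← Matrix.transpose_mul, h1.1]
            simp
    rw [Matrix.mul_sub, Matrix.sub_mul, e3]
    abel
  rw [e, nr_neg]
  have t2 := nr_conj (P J) ((P J).adjugate * G J * ((P J).adjugate)ᵀ - G 0)
  have t3 := hB J le_rfl
  have t4 : nr (P J) ^ 2 ≤ B ^ 2 := by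
    have := nr_nonneg (P J)
    gcongr
  have t5 : nr (P J) ^ 2 * nr ((P J).adjugate * G J * ((P J).adjugate)ᵀ - G 0)
      ≤ B ^ 2 * (B ^ 2 * (J * ε)) := by
    have := nr_nonneg ((P J).adjugate * G J * ((P J).adjugate)ᵀ - G 0)
    gcongr
  calc _ ≤ _ := t2
    _ ≤ _ := t5
    _ = _ := by ring

/-- adapted quadratic form -/
def qZ (Z M : M2) : ℝ := (Mᵀ * Z.adjugate * M).trace

lemma qZ_inv (Z X M : M2) (hX : X.det = 1) (h : X * Z * Xᵀ = Z) : qZ Z (X * M) = qZ Z M := by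
  have h1 : Xᵀ * Z.adjugate * X = Z.adjugate := by
    have e : Z.adjugate = Xᵀ.adjugate * (Z.adjugate * X.adjugate) := by
      conv_lhs => rw [← h]
      rw [Matrix.adjugate_mul_distrib, Matrix.adjugate_mul_distrib]
    have e1 : Xᵀ * Xᵀ.adjugate = 1 := by
      rw [Matrix.mul_adjugate, Matrix.det_transpose, hX, one_smul]
    have e2 : X.adjugate * X = 1 := by
      rw [Matrix.adjugate_mul, hX, one_smul]
    calc Xᵀ * Z.adjugate * X = Xᵀ * (Xᵀ.adjugate * (Z.adjugate * X.adjugate)) * X := by rw [← e]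
      _ = (Xᵀ * Xᵀ.adjugate) * Z.adjugate * (X.adjugate * X) := by
          simp only [Matrix.mul_assoc]
      _ = Z.adjugate := by rw [e1, e2]; simp
  unfold qZ
  rw [Matrix.transpose_mul]
  congr 1
  calc Mᵀ * Xᵀ * Z.adjugate * (X * M) = Mᵀ * (Xᵀ * Z.adjugate * X) * M := by
        simp only [Matrix.mul_assoc]
    _ = _ := by rw [h1]

lemma qZ_formula (Z M : M2) (hs : Z.IsSymm) :
    qZ Z M = Z 1 1 * (M 0 0 ^ 2 + M 0 1 ^ 2) - 2 * Z 0 1 * (M 0 0 * M 1 0 + M 0 1 * M 1 1)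
      + Z 0 0 * (M 1 0 ^ 2 + M 1 1 ^ 2) := by
  have h : Z 1 0 = Z 0 1 := by
    have := congrFun (congrFun hs 0) 1
    simpa [Matrix.transpose_apply] using this
  unfold qZ
  rw [Matrix.adjugate_fin_two, Matrix.trace_fin_two]
  simp [Matrix.mul_apply, Fin.sum_univ_two, Matrix.transpose_apply, h]
  ring

lemma symm10 (Z : M2) (hs : Z.IsSymm) : Z 1 0 = Z 0 1 := by
  have := congrFun (congrFun hs 0) 1
  simpa [Matrix.transpose_apply] using this

lemma ns_le_qZ (Z M : M2) (hs : Z.IsSymm) (hd : Z.det = 1) (hp : 0 < Z 0 0) (T : ℝ)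
    (hT : Z.trace ≤ T) : ns M ≤ T * qZ Z M := by
  have h10 := symm10 Z hs
  rw [Matrix.det_fin_two, h10] at hd
  rw [Matrix.trace_fin_two] at hT
  have hr : 0 < Z 1 1 := by
    by_contra hr
    push Not at hr
    nlinarith [sq_nonneg (Z 0 1)]
  have key : (Z 0 0 + Z 1 1) * qZ Z M = ns M + (Z 0 1 * M 0 0 - Z 0 0 * M 1 0) ^ 2
      + (Z 1 1 * M 0 0 - Z 0 1 * M 1 0) ^ 2 + (Z 0 1 * M 0 1 - Z 0 0 * M 1 1) ^ 2
      + (Z 1 1 * M 0 1 - Z 0 1 * M 1 1) ^ 2 := by
    rw [qZ_formula Z M hs]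
    unfold ns
    linear_combination (M 0 0 ^ 2 + M 0 1 ^ 2 + M 1 0 ^ 2 + M 1 1 ^ 2) * hd
  have hns : 0 ≤ ns M := by unfold ns; positivity
  have h1 : ns M ≤ (Z 0 0 + Z 1 1) * qZ Z M := by
    rw [key]
    nlinarith [sq_nonneg (Z 0 1 * M 0 0 - Z 0 0 * M 1 0),
      sq_nonneg (Z 1 1 * M 0 0 - Z 0 1 * M 1 0), sq_nonneg (Z 0 1 * M 0 1 - Z 0 0 * M 1 1),
      sq_nonneg (Z 1 1 * M 0 1 - Z 0 1 * M 1 1)]
  have hq : 0 ≤ qZ Z M := by
    by_contra hq
    push Not at hq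
    nlinarith
  nlinarith

lemma qZ_diff (Z Z' M : M2) (hs : Z.IsSymm) (hs' : Z'.IsSymm) :
    qZ Z' M ≤ qZ Z M + nr (Z' - Z) * ns M := by
  rw [qZ_formula Z M hs, qZ_formula Z' M hs']
  have h10 := symm10 Z hs
  have h10' := symm10 Z' hs'
  simp only [nr, Matrix.sub_apply, h10, h10', ns]
  set a := Z' 1 1 - Z 1 1
  set b := Z' 0 1 - Z 0 1
  set c := Z' 0 0 - Z 0 0
  have ha : Z' 1 1 = Z 1 1 + a := by simp [a]
  have hb : Z' 0 1 = Z 0 1 + b := by simp [b]
  have hc : Z' 0 0 = Z 0 0 + c := by simp [c]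
  rw [ha, hb, hc]
  have k1 : a * (M 0 0 ^ 2 + M 0 1 ^ 2) ≤ |a| * (M 0 0 ^ 2 + M 0 1 ^ 2) := by
    have := le_abs_self a
    gcongr
  have k2 : c * (M 1 0 ^ 2 + M 1 1 ^ 2) ≤ |c| * (M 1 0 ^ 2 + M 1 1 ^ 2) := by
    have := le_abs_self c
    gcongr
  have k3 : -(2 * b * (M 0 0 * M 1 0 + M 0 1 * M 1 1))
      ≤ |b| * (M 0 0 ^ 2 + M 0 1 ^ 2 + M 1 0 ^ 2 + M 1 1 ^ 2) := by
    have h1 : -(2 * b * (M 0 0 * M 1 0 + M 0 1 * M 1 1))
        ≤ |b| * (2 * |M 0 0 * M 1 0 + M 0 1 * M 1 1|) := by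
      have := neg_abs_le (b * (M 0 0 * M 1 0 + M 0 1 * M 1 1))
      rw [abs_mul] at this
      nlinarith
    have h2 : 2 * |M 0 0 * M 1 0 + M 0 1 * M 1 1|
        ≤ M 0 0 ^ 2 + M 0 1 ^ 2 + M 1 0 ^ 2 + M 1 1 ^ 2 := by
      rcases abs_cases (M 0 0 * M 1 0 + M 0 1 * M 1 1) with ⟨h, _⟩ | ⟨h, _⟩ <;> rw [h] <;>
        nlinarith [sq_nonneg (M 0 0 + M 1 0), sq_nonneg (M 0 0 - M 1 0),
          sq_nonneg (M 0 1 + M 1 1), sq_nonneg (M 0 1 - M 1 1)]
    have h3 : |b| * (2 * |M 0 0 * M 1 0 + M 0 1 * M 1 1|)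
        ≤ |b| * (M 0 0 ^ 2 + M 0 1 ^ 2 + M 1 0 ^ 2 + M 1 1 ^ 2) := by
      gcongr
    linarith
  have p1 : 0 ≤ |a| * (M 1 0 ^ 2 + M 1 1 ^ 2) := by positivity
  have p2 : 0 ≤ |c| * (M 0 0 ^ 2 + M 0 1 ^ 2) := by positivity
  have p3 : 0 ≤ |b| * (M 0 0 ^ 2 + M 0 1 ^ 2 + M 1 0 ^ 2 + M 1 1 ^ 2) := by positivity
  nlinarith

/-- products stay bounded -/
lemma bounded (X P Z : ℕ → M2) (J : ℕ) (hP0 : P 0 = 1) (hP : ∀ k, P (k+1) = X (k+1) * P k)
    (hdet : ∀ k, (X k).det = 1) (T L : ℝ) (hT : 0 ≤ T) (hL : 0 ≤ L)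
    (hZs : ∀ k ≤ J, (Z k).IsSymm) (hZd : ∀ k ≤ J, (Z k).det = 1) (hZp : ∀ k ≤ J, 0 < Z k 0 0)
    (hZT : ∀ k ≤ J, (Z k).trace ≤ T) (hfix : ∀ k ≤ J, X k * Z k * (X k)ᵀ = Z k)
    (hL' : ∀ k < J, nr (Z (k+1) - Z k) ≤ L / J) :
    ∀ k ≤ J, nr (P k) ≤ 1 + 4 * (T ^ 2 * Real.exp (L * T)) := by
  have main : ∀ k ≤ J, qZ (Z k) (P k) ≤ T * Real.exp (L * T * (k / J)) := by
    intro k
    induction k with
    | zero =>
      intro h0
      rw [hP0, qZ_formula _ _ (hZs 0 h0)]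
      have := hZT 0 h0
      rw [Matrix.trace_fin_two] at this
      simp
      linarith
    | succ k ih =>
      intro hk
      have ih' := ih (by omega)
      have hJ : (0:ℝ) < J := by
        have : 0 < J := by omega
        exact_mod_cast this
      have h1 : qZ (Z (k+1)) (P (k+1)) = qZ (Z (k+1)) (P k) := by
        rw [hP]
        exact qZ_inv _ _ _ (hdet _) (hfix (k+1) hk)
      have h2 := qZ_diff (Z k) (Z (k+1)) (P k) (hZs k (by omega)) (hZs (k+1) hk)
      have h3 := ns_le_qZ (Z k) (P k) (hZs k (by omega)) (hZd k (by omega)) (hZp k (by omega)) T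
        (hZT k (by omega))
      have h4 := hL' k (by omega)
      have h5 : nr (Z (k+1) - Z k) * ns (P k) ≤ L / J * (T * qZ (Z k) (P k)) := by
        have h6 : 0 ≤ ns (P k) := by unfold ns; positivity
        have h7 : 0 ≤ L / J := by positivity
        calc nr (Z (k+1) - Z k) * ns (P k) ≤ L / J * ns (P k) := by gcongr
          _ ≤ _ := by gcongr
      have h8 : 1 + L * T / J ≤ Real.exp (L * T / J) := by
        have := Real.add_one_le_exp (L * T / J)
        linarith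
      calc qZ (Z (k+1)) (P (k+1)) ≤ qZ (Z k) (P k) + L / J * (T * qZ (Z k) (P k)) := by
            rw [h1]; linarith
        _ = (1 + L * T / J) * qZ (Z k) (P k) := by ring
        _ ≤ (1 + L * T / J) * (T * Real.exp (L * T * (k / J))) := by
            have : 0 ≤ 1 + L * T / J := by positivity
            gcongr
        _ ≤ Real.exp (L * T / J) * (T * Real.exp (L * T * (k / J))) := by
            gcongr
        _ = T * (Real.exp (L * T / J) * Real.exp (L * T * (k / J))) := by ring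
        _ = T * Real.exp (L * T * ((k + 1 : ℕ) / J)) := by
            rw [← Real.exp_add]
            congr 2
            push_cast
            ring
  intro k hk
  have h1 := main k hk
  have h2 : Real.exp (L * T * (k / J)) ≤ Real.exp (L * T) := by
    apply Real.exp_le_exp.mpr
    have h3 : (k:ℝ) / J ≤ 1 := by
      rcases Nat.eq_zero_or_pos J with h | h
      · have hk0 : k = 0 := by omega
        subst hk0
        simp
      · rw [div_le_one (by exact_mod_cast h)]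
        exact_mod_cast hk
    have h4 : 0 ≤ L * T := by positivity
    nlinarith
  have h3 := ns_le_qZ (Z k) (P k) (hZs k hk) (hZd k hk) (hZp k hk) T (hZT k hk)
  have h4 : ns (P k) ≤ T ^ 2 * Real.exp (L * T) := by
    calc ns (P k) ≤ T * qZ (Z k) (P k) := h3
      _ ≤ T * (T * Real.exp (L * T * (k / J))) := by gcongr
      _ ≤ T * (T * Real.exp (L * T)) := by gcongr
      _ = _ := by ring
  have h5 : nr (P k) ^ 2 ≤ 4 * ns (P k) := by
    unfold nr ns
    have e0 := sq_abs (P k 0 0)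
    have e1 := sq_abs (P k 0 1)
    have e2 := sq_abs (P k 1 0)
    have e3 := sq_abs (P k 1 1)
    rw [← e0, ← e1, ← e2, ← e3]
    nlinarith [sq_nonneg (|P k 0 0| - |P k 0 1|), sq_nonneg (|P k 0 0| - |P k 1 0|),
      sq_nonneg (|P k 0 0| - |P k 1 1|), sq_nonneg (|P k 0 1| - |P k 1 0|),
      sq_nonneg (|P k 0 1| - |P k 1 1|), sq_nonneg (|P k 1 0| - |P k 1 1|)]
  nlinarith [sq_nonneg (nr (P k) - 1), nr_nonneg (P k)]

end Pool.Agent.H252R3.SC3
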