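import Pool.Agent.H252R3.SC3a

set_option autoImplicit false

namespace Pool.Agent.H252R3.SC3

open Matrix Filter Topology Set
open Pool.Agent.H508R3.SC

/-- fixed direction -/
def MX (X : M2) : M2 := !![-2 * X 0 1, X 0 0 - X 1 1; X 0 0 - X 1 1, 2 * X 1 0]

lemma MX_symm (X : M2) : (MX X).IsSymm := by
  ext i j
  fin_cases i <;> fin_cases j <;> simp [MX, Matrix.transpose_apply]

lemma MX_det (X : M2) (hX : X.det = 1) : (MX X).det = 4 - X.trace ^ 2 := by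
  rw [Matrix.det_fin_two] at hX
  rw [Matrix.trace_fin_two, MX, Matrix.det_fin_two_of]
  linear_combination (4 : ℝ) * hX

lemma MX_fix (X : M2) (hX : X.det = 1) : X * MX X * Xᵀ = MX X := by
  rw [Matrix.det_fin_two] at hX
  ext i j
  fin_cases i <;> fin_cases j <;>
    simp [MX, Matrix.mul_apply, Fin.sum_univ_two, Matrix.transpose_apply]
  · linear_combination (-2 * X 0 1) * hX
  · linear_combination (X 0 0 - X 1 1) * hX
  · linear_combination (X 0 0 - X 1 1) * hX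
  · linear_combination (2 * X 1 0) * hX

lemma b_ne (X : M2) (hX : X.det = 1) (ht : |X.trace| < 2) : X 0 1 ≠ 0 := by
  intro h
  rw [Matrix.det_fin_two, h] at hX
  rw [Matrix.trace_fin_two] at ht
  have h2 : (X 0 0 + X 1 1) ^ 2 < 4 := by
    have := sq_lt_sq' (neg_lt_of_abs_lt ht) (lt_of_abs_lt ht)
    linarith
  nlinarith [sq_nonneg (X 0 0 - X 1 1)]

lemma tr_pos (X : M2) (ht : |X.trace| < 2) : 0 < 4 - X.trace ^ 2 := by
  have := sq_lt_sq' (neg_lt_of_abs_lt ht) (lt_of_abs_lt ht)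
  linarith

lemma uniq (X Z : M2) (hX : X.det = 1) (ht : |X.trace| < 2) (hs : Z.IsSymm) (hd : Z.det = 1)
    (hp : 0 < Z 0 0) (hfix : X * Z * Xᵀ = Z) (κ : ℝ) (hκ : κ ^ 2 * (4 - X.trace ^ 2) = 1)
    (hκp : 0 < κ * (-2 * X 0 1)) : Z = κ • MX X := by
  have hb := b_ne X hX ht
  have h10 := symm10 Z hs
  have h1 : X * Z = Z * (X.adjugate)ᵀ := by
    have e : Xᵀ * (X.adjugate)ᵀ = 1 := by
      rw [← Matrix.transpose_mul, Matrix.adjugate_mul, hX, one_smul, Matrix.transpose_one]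
    calc X * Z = X * Z * (Xᵀ * (X.adjugate)ᵀ) := by rw [e, Matrix.mul_one]
      _ = (X * Z * Xᵀ) * (X.adjugate)ᵀ := by simp only [Matrix.mul_assoc]
      _ = _ := by rw [hfix]
  have h00 := congrFun (congrFun h1 0) 0
  have h01 := congrFun (congrFun h1 0) 1
  rw [Matrix.adjugate_fin_two] at h00 h01
  simp [Matrix.mul_apply, Fin.sum_univ_two, Matrix.transpose_apply, h10] at h00 h01
  rw [Matrix.det_fin_two, h10] at hd
  have hX' := hX
  rw [Matrix.det_fin_two] at hX'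
  rw [Matrix.trace_fin_two] at hκ
  obtain ⟨l, hl⟩ : ∃ l : ℝ, Z 0 0 = l * (-2 * X 0 1) :=
    ⟨Z 0 0 / (-2 * X 0 1), by field_simp⟩
  have hq : Z 0 1 = l * (X 0 0 - X 1 1) := by
    have : X 0 1 * (Z 0 1 - l * (X 0 0 - X 1 1)) = 0 := by
      rw [hl] at h00
      linear_combination (1/2 : ℝ) * h00
    rcases mul_eq_zero.mp this with h | h
    · exact absurd h hb
    · linarith
  have hr : Z 1 1 = l * (2 * X 1 0) := by
    have : X 0 1 * (Z 1 1 - l * (2 * X 1 0)) = 0 := by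
      rw [hl] at h01
      linear_combination h01
    rcases mul_eq_zero.mp this with h | h
    · exact absurd h hb
    · linarith
  have hl2 : l ^ 2 * (4 - (X 0 0 + X 1 1) ^ 2) = 1 := by
    rw [hl, hq, hr] at hd
    linear_combination hd - 4 * l ^ 2 * hX'
  have hpos := tr_pos X ht
  rw [Matrix.trace_fin_two] at hpos
  have hsq : l ^ 2 = κ ^ 2 := by
    have : (l ^ 2 - κ ^ 2) * (4 - (X 0 0 + X 1 1) ^ 2) = 0 := by linear_combination hl2 - hκ
    rcases mul_eq_zero.mp this with h | h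
    · linarith
    · exact absurd h hpos.ne'
  have hlk : l = κ := by
    rcases sq_eq_sq_iff_eq_or_eq_neg.mp hsq with h | h
    · exact h
    · rw [hl, h] at hp
      nlinarith
  subst hlk
  ext i j
  fin_cases i <;> fin_cases j <;> simp [MX, h10, hq, hr, hl]

lemma corr (X Y : M2) (hX : X.det = 1) (hY : Y * Xᵀ = X * Y) (c : ℝ) (hc : c * (4 - X.trace ^ 2) = 1) :
    X * (c • (Y - X * Y * Xᵀ)) * Xᵀ - c • (Y - X * Y * Xᵀ) - X * Y * Xᵀ = 0 := by
  have hCH : X * X = X.trace • X - 1 := by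
    rw [Matrix.det_fin_two] at hX
    ext i j
    fin_cases i <;> fin_cases j <;>
      simp [Matrix.mul_apply, Fin.sum_univ_two, Matrix.trace_fin_two]
    · linear_combination (-1 : ℝ) * hX
    · ring
    · ring
    · linear_combination (-1 : ℝ) * hX
  set t := X.trace with ht
  have hA : (X * X) * (X * X) = (t ^ 2 - 2) • (X * X) - 1 := by
    have e1 : (X * X) * (X * X) = (t * t) • (X * X) - (2 * t) • X + 1 := by
      conv_lhs => rw [hCH]
      rw [sub_mul, mul_sub, mul_sub, Matrix.mul_one, Matrix.one_mul, Matrix.mul_one,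
        Matrix.smul_mul, Matrix.mul_smul, smul_smul]
      module
    rw [e1, hCH]
    module
  have hXY : X * Y * Xᵀ = (X * X) * Y := by
    rw [Matrix.mul_assoc, hY, Matrix.mul_assoc]
  have h2 : X * (X * Y * Xᵀ) * Xᵀ = ((t ^ 2 - 2) • (X * X) - 1) * Y := by
    rw [hXY, ← hA]
    calc X * (X * X * Y) * Xᵀ = X * (X * X) * (Y * Xᵀ) := by simp only [Matrix.mul_assoc]
      _ = _ := by rw [hY]; simp only [Matrix.mul_assoc]
  have h3 : X * (c • (Y - X * Y * Xᵀ)) * Xᵀ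
      = c • (X * Y * Xᵀ - X * (X * Y * Xᵀ) * Xᵀ) := by
    rw [Matrix.mul_smul, Matrix.smul_mul, Matrix.mul_sub, Matrix.sub_mul]
  rw [h3, h2, hXY, sub_mul, Matrix.one_mul, Matrix.smul_mul]
  have : c • (X * X * Y - ((t ^ 2 - 2) • (X * X * Y) - Y)) - c • (Y - X * X * Y) - X * X * Y
      = (c * (4 - t ^ 2) - 1) • (X * X * Y) := by module
  rw [this, hc]
  simp

lemma XY_symm (X Y : M2) (hYs : Y 1 0 = Y 0 1)
    (h : X 1 0 * Y 0 0 - (X 0 0 - X 1 1) * Y 0 1 - X 0 1 * Y 1 1 = 0) : Y * Xᵀ = X * Y := by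
  ext i j
  fin_cases i <;> fin_cases j <;>
    simp [Matrix.mul_apply, Fin.sum_univ_two, Matrix.transpose_apply, hYs]
  · ring
  · linear_combination h
  · linear_combination (-1 : ℝ) * h
  · ring

/-! ### analysis on `[0,1]` -/

lemma bdd (f : ℝ → ℝ) (hf : ContinuousOn f (Icc 0 1)) :
    ∃ K : ℝ, 0 ≤ K ∧ ∀ x ∈ Icc (0:ℝ) 1, |f x| ≤ K := by
  obtain ⟨C, hC⟩ := isCompact_Icc.exists_bound_of_continuousOn hf
  exact ⟨|C|, abs_nonneg _, fun x hx => (hC x hx).trans (le_abs_self C)⟩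

lemma lip (f : ℝ → ℝ) (hf : ContDiffOn ℝ 1 f (Icc 0 1)) :
    ∃ K : ℝ, 0 ≤ K ∧ ∀ x ∈ Icc (0:ℝ) 1, ∀ y ∈ Icc (0:ℝ) 1, |f y - f x| ≤ K * |y - x| := by
  have hu : UniqueDiffOn ℝ (Icc (0:ℝ) 1) := uniqueDiffOn_Icc one_pos
  obtain ⟨K, hK0, hK⟩ := bdd (derivWithin f (Icc 0 1)) (hf.continuousOn_derivWithin hu le_rfl)
  refine ⟨K, hK0, fun x hx y hy => ?_⟩
  exact Convex.norm_image_sub_le_of_norm_derivWithin_le (hf.differentiableOn one_ne_zero)
    (fun z hz => hK z hz) (convex_Icc 0 1) hx hy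

lemma taylor (f : ℝ → ℝ) (hf : ContDiffOn ℝ 2 f (Icc 0 1)) :
    ∃ K : ℝ, 0 ≤ K ∧ ∀ x ∈ Icc (0:ℝ) 1, ∀ y ∈ Icc (0:ℝ) 1,
      |f y - f x - derivWithin f (Icc 0 1) x * (y - x)| ≤ K * |y - x| ^ 2 := by
  have hu : UniqueDiffOn ℝ (Icc (0:ℝ) 1) := uniqueDiffOn_Icc one_pos
  have hd : ContDiffOn ℝ 1 (derivWithin f (Icc 0 1)) (Icc 0 1) :=
    hf.derivWithin hu (by norm_num)
  obtain ⟨K, hK0, hK⟩ := lip _ hd
  refine ⟨K, hK0, fun x hx y hy => ?_⟩
  set f' := derivWithin f (Icc 0 1)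
  have hsub : uIcc x y ⊆ Icc (0:ℝ) 1 := by
    rw [uIcc]
    exact Icc_subset_Icc (le_min hx.1 hy.1) (max_le hx.2 hy.2)
  have h1 : ∀ u ∈ uIcc x y, HasDerivWithinAt (fun u => f u - f' x * u) (f' u - f' x) (uIcc x y) u := by
    intro u hu
    have hdu : HasDerivWithinAt f (f' u) (Icc 0 1) u :=
      ((hf.differentiableOn two_ne_zero) u (hsub hu)).hasDerivWithinAt
    have h2 : HasDerivWithinAt (fun u : ℝ => f' x * u) (f' x) (uIcc x y) u := by
      simpa using (hasDerivWithinAt_id u (uIcc x y)).const_mul (f' x)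
    exact (hdu.mono hsub).sub h2
  have h2 : ∀ u ∈ uIcc x y, ‖f' u - f' x‖ ≤ K * |y - x| := by
    intro u hu
    have h3 := hK x hx u (hsub hu)
    have h4 : |u - x| ≤ |y - x| := abs_sub_left_of_mem_uIcc hu
    calc ‖f' u - f' x‖ = |f' u - f' x| := Real.norm_eq_abs _
      _ ≤ K * |u - x| := h3
      _ ≤ K * |y - x| := by gcongr
  have h3 := Convex.norm_image_sub_le_of_norm_hasDerivWithin_le h1 h2 (convex_uIcc x y)
    left_mem_uIcc right_mem_uIcc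
  have e : f y - f' x * y - (f x - f' x * x) = f y - f x - f' x * (y - x) := by ring
  rw [e, Real.norm_eq_abs, Real.norm_eq_abs] at h3
  calc _ ≤ _ := h3
    _ = _ := by ring

lemma bddM (F : ℝ → M2) (hF : ∀ i j, ContinuousOn (fun s => F s i j) (Icc 0 1)) :
    ∃ K : ℝ, 0 ≤ K ∧ ∀ x ∈ Icc (0:ℝ) 1, nr (F x) ≤ K := by
  obtain ⟨a, ha, h1⟩ := bdd _ (hF 0 0)
  obtain ⟨b, hb, h2⟩ := bdd _ (hF 0 1)
  obtain ⟨c, hc, h3⟩ := bdd _ (hF 1 0)
  obtain ⟨d, hd, h4⟩ := bdd _ (hF 1 1)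
  refine ⟨a + b + c + d, by positivity, fun x hx => ?_⟩
  have := h1 x hx
  have := h2 x hx
  have := h3 x hx
  have := h4 x hx
  simp only [nr]
  linarith

lemma lipM (F : ℝ → M2) (hF : ∀ i j, ContDiffOn ℝ 1 (fun s => F s i j) (Icc 0 1)) :
    ∃ K : ℝ, 0 ≤ K ∧ ∀ x ∈ Icc (0:ℝ) 1, ∀ y ∈ Icc (0:ℝ) 1, nr (F y - F x) ≤ K * |y - x| := by
  obtain ⟨a, ha, h1⟩ := lip _ (hF 0 0)
  obtain ⟨b, hb, h2⟩ := lip _ (hF 0 1)
  obtain ⟨c, hc, h3⟩ := lip _ (hF 1 0)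
  obtain ⟨d, hd, h4⟩ := lip _ (hF 1 1)
  refine ⟨a + b + c + d, by positivity, fun x hx y hy => ?_⟩
  have := h1 x hx y hy
  have := h2 x hx y hy
  have := h3 x hx y hy
  have := h4 x hx y hy
  simp only [nr, Matrix.sub_apply]
  linarith

/-- entrywise derivative -/
noncomputable def DM (F : ℝ → M2) (s : ℝ) : M2 :=
  Matrix.of fun i j => derivWithin (fun s => F s i j) (Icc 0 1) s

lemma taylorM (F : ℝ → M2) (hF : ∀ i j, ContDiffOn ℝ 2 (fun s => F s i j) (Icc 0 1)) :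
    ∃ K : ℝ, 0 ≤ K ∧ ∀ x ∈ Icc (0:ℝ) 1, ∀ y ∈ Icc (0:ℝ) 1,
      nr (F y - F x - (y - x) • DM F x) ≤ K * |y - x| ^ 2 := by
  obtain ⟨a, ha, h1⟩ := taylor _ (hF 0 0)
  obtain ⟨b, hb, h2⟩ := taylor _ (hF 0 1)
  obtain ⟨c, hc, h3⟩ := taylor _ (hF 1 0)
  obtain ⟨d, hd, h4⟩ := taylor _ (hF 1 1)
  refine ⟨a + b + c + d, by positivity, fun x hx y hy => ?_⟩
  have t1 := h1 x hx y hy
  have t2 := h2 x hx y hy
  have t3 := h3 x hx y hy
  have t4 := h4 x hx y hy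
  simp only [nr, Matrix.sub_apply, Matrix.smul_apply, DM, Matrix.of_apply, smul_eq_mul]
  rw [mul_comm] at t1 t2 t3 t4
  simp only [mul_comm (y - x)] at *
  linarith

end Pool.Agent.H252R3.SC3
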