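import Pool.Agent.H252R3.SC3b

set_option autoImplicit false

namespace Pool.Agent.H252R3.SC3

open Matrix Filter Topology Set
open Pool.Agent.H508R3.SC

/-- products of the matrices `X (k/J)`, `k = 1, 2, ...` -/
noncomputable def PJ (X : ℝ → M2) (J : ℕ) : ℕ → M2
  | 0 => 1
  | (k+1) => X ((k+1 : ℕ) / J) * PJ X J k

/-- the smooth family of fixed points -/
noncomputable def ZZ (X : ℝ → M2) (σ : ℝ) (s : ℝ) : M2 :=
  (σ / √(4 - (X s).trace ^ 2)) • MX (X s)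

lemma ZZ_contDiffOn (X : ℝ → M2) (hX : ∀ i j, ContDiff ℝ 3 (fun s => X s i j))
    (htr : ∀ s ∈ Set.Icc (0:ℝ) 1, |(X s).trace| < 2) (σ : ℝ) :
    ∀ i j, ContDiffOn ℝ 3 (fun s => ZZ X σ s i j) (Icc 0 1) := by
  have h00 : ContDiffOn ℝ 3 (fun s => X s 0 0) (Icc 0 1) := (hX 0 0).contDiffOn
  have h01 : ContDiffOn ℝ 3 (fun s => X s 0 1) (Icc 0 1) := (hX 0 1).contDiffOn
  have h10 : ContDiffOn ℝ 3 (fun s => X s 1 0) (Icc 0 1) := (hX 1 0).contDiffOn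
  have h11 : ContDiffOn ℝ 3 (fun s => X s 1 1) (Icc 0 1) := (hX 1 1).contDiffOn
  have ht : ContDiffOn ℝ 3 (fun s => 4 - (X s).trace ^ 2) (Icc 0 1) := by
    simp only [Matrix.trace_fin_two]
    exact contDiffOn_const.sub ((h00.add h11).pow 2)
  have hk : ContDiffOn ℝ 3 (fun s => σ / √(4 - (X s).trace ^ 2)) (Icc 0 1) := by
    apply contDiffOn_const.div
    · apply ht.sqrt
      intro s hs
      exact (tr_pos _ (htr s hs)).ne'
    · intro s hs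
      exact (Real.sqrt_pos.mpr (tr_pos _ (htr s hs))).ne'
  intro i j
  fin_cases i <;> fin_cases j <;> simp only [ZZ, MX, Matrix.smul_apply, smul_eq_mul]
  · exact hk.mul (contDiffOn_const.mul h01)
  · exact hk.mul (h00.sub h11)
  · exact hk.mul (h00.sub h11)
  · exact hk.mul (contDiffOn_const.mul h10)

lemma DM_rel (X : ℝ → M2) (hX : ∀ i j, ContDiff ℝ 3 (fun s => X s i j))
    (hdet : ∀ s, (X s).det = 1)
    (htr : ∀ s ∈ Set.Icc (0:ℝ) 1, |(X s).trace| < 2) (σ : ℝ) (hσ : σ ^ 2 = 1) :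
    ∀ s ∈ Icc (0:ℝ) 1, (DM (ZZ X σ) s) * (X s)ᵀ = X s * DM (ZZ X σ) s := by
  intro s hs
  have hZ := ZZ_contDiffOn X hX htr σ
  have hu : UniqueDiffWithinAt ℝ (Icc (0:ℝ) 1) s := (uniqueDiffOn_Icc one_pos) s hs
  have hd : ∀ i j, HasDerivWithinAt (fun s => ZZ X σ s i j) (DM (ZZ X σ) s i j) (Icc 0 1) s := by
    intro i j
    exact (((hZ i j).differentiableOn three_ne_zero) s hs).hasDerivWithinAt
  apply XY_symm
  · unfold DM
    simp only [Matrix.of_apply]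
    congr 1
  · have h1 : ∀ x ∈ Icc (0:ℝ) 1, ZZ X σ x 0 0 * ZZ X σ x 1 1 - ZZ X σ x 0 1 * ZZ X σ x 0 1 = 1 := by
      intro x hx
      have hpos := tr_pos _ (htr x hx)
      have hsq : √(4 - (X x).trace ^ 2) ^ 2 = 4 - (X x).trace ^ 2 := Real.sq_sqrt hpos.le
      have hs0 : √(4 - (X x).trace ^ 2) ≠ 0 := (Real.sqrt_pos.mpr hpos).ne'
      have hk : (σ / √(4 - (X x).trace ^ 2)) ^ 2 * (4 - (X x).trace ^ 2) = 1 := by
        rw [div_pow, hσ, hsq]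
        field_simp
      have hdx := MX_det (X x) (hdet x)
      rw [Matrix.det_fin_two, symm10 _ (MX_symm _)] at hdx
      simp only [ZZ, Matrix.smul_apply, smul_eq_mul]
      rw [← hk, ← hdx]
      ring
    have h2 : HasDerivWithinAt
        (fun x => ZZ X σ x 0 0 * ZZ X σ x 1 1 - ZZ X σ x 0 1 * ZZ X σ x 0 1)
        ((DM (ZZ X σ) s 0 0 * ZZ X σ s 1 1 + ZZ X σ s 0 0 * DM (ZZ X σ) s 1 1)
          - (DM (ZZ X σ) s 0 1 * ZZ X σ s 0 1 + ZZ X σ s 0 1 * DM (ZZ X σ) s 0 1)) (Icc 0 1) s :=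
      ((hd 0 0).mul (hd 1 1)).sub ((hd 0 1).mul (hd 0 1))
    have h3 : HasDerivWithinAt
        (fun x => ZZ X σ x 0 0 * ZZ X σ x 1 1 - ZZ X σ x 0 1 * ZZ X σ x 0 1) 0 (Icc 0 1) s :=
      (hasDerivWithinAt_const s (Icc 0 1) (1:ℝ)).congr h1 (h1 s hs)
    have h4 := hu.eq_deriv _ h2 h3
    have hpos := tr_pos _ (htr s hs)
    have hs0 : √(4 - (X s).trace ^ 2) ≠ 0 := (Real.sqrt_pos.mpr hpos).ne'
    have hσ0 : σ ≠ 0 := by
      rintro rfl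
      norm_num at hσ
    have hk0 : 2 * (σ / √(4 - (X s).trace ^ 2)) ≠ 0 := by positivity
    have e00 : ZZ X σ s 0 0 = σ / √(4 - (X s).trace ^ 2) * (-2 * X s 0 1) := by
      simp [ZZ, MX]
    have e01 : ZZ X σ s 0 1 = σ / √(4 - (X s).trace ^ 2) * (X s 0 0 - X s 1 1) := by
      simp [ZZ, MX]
    have e11 : ZZ X σ s 1 1 = σ / √(4 - (X s).trace ^ 2) * (2 * X s 1 0) := by
      simp [ZZ, MX]
    rw [e00, e01, e11] at h4
    apply mul_left_cancel₀ hk0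
    rw [mul_zero]
    linear_combination h4

/-- the correction -/
noncomputable def WW (X : ℝ → M2) (σ : ℝ) (s : ℝ) : M2 :=
  (4 - (X s).trace ^ 2)⁻¹ • (DM (ZZ X σ) s - X s * DM (ZZ X σ) s * (X s)ᵀ)

lemma WW_contDiffOn (X : ℝ → M2) (hX : ∀ i j, ContDiff ℝ 3 (fun s => X s i j))
    (htr : ∀ s ∈ Set.Icc (0:ℝ) 1, |(X s).trace| < 2) (σ : ℝ) :
    ∀ i j, ContDiffOn ℝ 1 (fun s => WW X σ s i j) (Icc 0 1) := by
  have hu : UniqueDiffOn ℝ (Icc (0:ℝ) 1) := uniqueDiffOn_Icc one_pos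
  have hX' : ∀ i j, ContDiffOn ℝ 1 (fun s => X s i j) (Icc 0 1) := fun i j =>
    ((hX i j).of_le (by norm_num)).contDiffOn
  have hD : ∀ i j, ContDiffOn ℝ 1 (fun s => DM (ZZ X σ) s i j) (Icc 0 1) := by
    intro i j
    have h1 : ContDiffOn ℝ 1 (derivWithin (fun s => ZZ X σ s i j) (Icc 0 1)) (Icc 0 1) :=
      (ZZ_contDiffOn X hX htr σ i j).derivWithin hu (by norm_num)
    exact h1
  have ht : ContDiffOn ℝ 1 (fun s => (4 - (X s).trace ^ 2)⁻¹) (Icc 0 1) := by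
    apply ContDiffOn.inv
    · simp only [Matrix.trace_fin_two]
      exact contDiffOn_const.sub (((hX' 0 0).add (hX' 1 1)).pow 2)
    · intro s hs
      exact (tr_pos _ (htr s hs)).ne'
  intro i j
  simp only [WW, Matrix.smul_apply, smul_eq_mul, Matrix.sub_apply, Matrix.mul_apply,
    Fin.sum_univ_two, Matrix.transpose_apply]
  exact ht.mul ((hD i j).sub
    (((((hX' i 0).mul (hD 0 0)).add ((hX' i 1).mul (hD 1 0))).mul (hX' j 0)).add
    ((((hX' i 0).mul (hD 0 1)).add ((hX' i 1).mul (hD 1 1))).mul (hX' j 1))))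

lemma step (X : ℝ → M2) (hX : ∀ i j, ContDiff ℝ 3 (fun s => X s i j))
    (hdet : ∀ s, (X s).det = 1)
    (htr : ∀ s ∈ Set.Icc (0:ℝ) 1, |(X s).trace| < 2) (σ : ℝ) (hσ : σ ^ 2 = 1) :
    ∃ A : ℝ, 0 ≤ A ∧ ∀ u ∈ Icc (0:ℝ) 1, ∀ s ∈ Icc (0:ℝ) 1, ∀ h : ℝ, 0 ≤ h → s - u = h →
      nr (X s * (ZZ X σ u + h • WW X σ u) * (X s)ᵀ - (ZZ X σ s + h • WW X σ s)) ≤ A * h ^ 2 := by
  have hZ := ZZ_contDiffOn X hX htr σ
  obtain ⟨K1, hK1, T1⟩ := taylorM (ZZ X σ) (fun i j => (hZ i j).of_le (by norm_num))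
  obtain ⟨K2, hK2, T2⟩ := lipM (WW X σ) (WW_contDiffOn X hX htr σ)
  obtain ⟨K3, hK3, T3⟩ := bddM X (fun i j => (hX i j).continuous.continuousOn)
  refine ⟨K3 ^ 2 * (K1 + K2), by positivity, ?_⟩
  intro u hu s hs h hh hsu
  have hfix : X s * ZZ X σ s * (X s)ᵀ = ZZ X σ s := by
    unfold ZZ
    rw [Matrix.mul_smul, Matrix.smul_mul, MX_fix _ (hdet s)]
  have hcorr := corr (X s) (DM (ZZ X σ) s) (hdet s) (DM_rel X hX hdet htr σ hσ s hs)
    ((4 - (X s).trace ^ 2)⁻¹) (inv_mul_cancel₀ (tr_pos _ (htr s hs)).ne')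
  have hW : (4 - (X s).trace ^ 2)⁻¹ • (DM (ZZ X σ) s - X s * DM (ZZ X σ) s * (X s)ᵀ) = WW X σ s :=
    rfl
  rw [hW] at hcorr
  have e : X s * (ZZ X σ u + h • WW X σ u) * (X s)ᵀ - (ZZ X σ s + h • WW X σ s)
      = X s * (ZZ X σ u - ZZ X σ s - (u - s) • DM (ZZ X σ) s) * (X s)ᵀ
        + h • (X s * (WW X σ u - WW X σ s) * (X s)ᵀ) := by
    have e1 : X s * (ZZ X σ u + h • WW X σ u) * (X s)ᵀ
        = X s * ZZ X σ u * (X s)ᵀ + h • (X s * WW X σ u * (X s)ᵀ) := by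
      rw [Matrix.mul_add, Matrix.add_mul, Matrix.mul_smul, Matrix.smul_mul]
    have e2 : X s * (ZZ X σ u - ZZ X σ s - (u - s) • DM (ZZ X σ) s) * (X s)ᵀ
        = X s * ZZ X σ u * (X s)ᵀ - ZZ X σ s + h • (X s * DM (ZZ X σ) s * (X s)ᵀ) := by
      have : u - s = -h := by linarith
      rw [this, Matrix.mul_sub, Matrix.mul_sub, Matrix.sub_mul, Matrix.sub_mul, hfix,
        Matrix.mul_smul, Matrix.smul_mul]
      module
    have e3 : X s * (WW X σ u - WW X σ s) * (X s)ᵀ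
        = X s * WW X σ u * (X s)ᵀ - X s * WW X σ s * (X s)ᵀ := by
      rw [Matrix.mul_sub, Matrix.sub_mul]
    have e4 : X s * DM (ZZ X σ) s * (X s)ᵀ = X s * WW X σ s * (X s)ᵀ - WW X σ s := by
      have := sub_eq_zero.mp hcorr
      exact this.symm
    rw [e1, e2, e3, e4]
    module
  rw [e]
  have hXs := T3 s hs
  have hXs0 := nr_nonneg (X s)
  have hsq : nr (X s) ^ 2 ≤ K3 ^ 2 := by gcongr
  have t1 : nr (X s * (ZZ X σ u - ZZ X σ s - (u - s) • DM (ZZ X σ) s) * (X s)ᵀ)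
      ≤ K3 ^ 2 * (K1 * h ^ 2) := by
    have a1 := nr_conj (X s) (ZZ X σ u - ZZ X σ s - (u - s) • DM (ZZ X σ) s)
    have a2 := T1 s hs u hu
    have a3 : |u - s| = h := by
      have : u - s = -h := by linarith
      rw [this, abs_neg, abs_of_nonneg hh]
    rw [a3] at a2
    calc _ ≤ _ := a1
      _ ≤ K3 ^ 2 * (K1 * h ^ 2) := by
        have := nr_nonneg (ZZ X σ u - ZZ X σ s - (u - s) • DM (ZZ X σ) s)
        gcongr
  have t2 : nr (h • (X s * (WW X σ u - WW X σ s) * (X s)ᵀ)) ≤ h * (K3 ^ 2 * (K2 * h)) := by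
    rw [nr_smul, abs_of_nonneg hh]
    have a1 := nr_conj (X s) (WW X σ u - WW X σ s)
    have a2 := T2 s hs u hu
    have a3 : |u - s| = h := by
      have : u - s = -h := by linarith
      rw [this, abs_neg, abs_of_nonneg hh]
    rw [a3] at a2
    have a4 : nr (X s * (WW X σ u - WW X σ s) * (X s)ᵀ) ≤ K3 ^ 2 * (K2 * h) := by
      calc _ ≤ _ := a1
        _ ≤ _ := by
          have := nr_nonneg (WW X σ u - WW X σ s)
          gcongr
    gcongr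
  have t3 := nr_add (X s * (ZZ X σ u - ZZ X σ s - (u - s) • DM (ZZ X σ) s) * (X s)ᵀ)
    (h • (X s * (WW X σ u - WW X σ s) * (X s)ᵀ))
  calc _ ≤ _ := t3
    _ ≤ K3 ^ 2 * (K1 * h ^ 2) + h * (K3 ^ 2 * (K2 * h)) := add_le_add t1 t2
    _ = _ := by ring

lemma sign_const (X : ℝ → M2) (hX : ∀ i j, ContDiff ℝ 3 (fun s => X s i j))
    (hdet : ∀ s, (X s).det = 1)
    (htr : ∀ s ∈ Set.Icc (0:ℝ) 1, |(X s).trace| < 2) :
    ∃ σ : ℝ, σ ^ 2 = 1 ∧ ∀ s ∈ Icc (0:ℝ) 1, 0 < σ * (-2 * X s 0 1) := by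
  have hne : ∀ s ∈ Icc (0:ℝ) 1, X s 0 1 ≠ 0 := fun s hs => b_ne _ (hdet s) (htr s hs)
  have hc : ContinuousOn (fun s => X s 0 1) (Icc 0 1) := (hX 0 1).continuous.continuousOn
  have hpc : IsPreconnected (Icc (0:ℝ) 1) := isPreconnected_Icc
  have h0m : (0:ℝ) ∈ Icc (0:ℝ) 1 := ⟨le_rfl, zero_le_one⟩
  rcases lt_or_gt_of_ne (hne 0 h0m) with h0 | h0
  · refine ⟨1, by norm_num, fun s hs => ?_⟩
    have : X s 0 1 < 0 := by
      by_contra hcon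
      push Not at hcon
      obtain ⟨z, hz, hz0⟩ := hpc.intermediate_value h0m hs hc (show (0:ℝ) ∈ Icc (X 0 0 1) (X s 0 1) from ⟨h0.le, hcon⟩)
      exact hne z hz hz0
    linarith
  · refine ⟨-1, by norm_num, fun s hs => ?_⟩
    have : 0 < X s 0 1 := by
      by_contra hcon
      push Not at hcon
      obtain ⟨z, hz, hz0⟩ := hpc.intermediate_value hs h0m hc (show (0:ℝ) ∈ Icc (X s 0 1) (X 0 0 1) from ⟨hcon, h0.le⟩)
      exact hne z hz hz0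
    linarith

theorem adiabatic (X : ℝ → M2) (hX : ∀ i j, ContDiff ℝ 3 (fun s => X s i j))
    (hdet : ∀ s, (X s).det = 1) (htr : ∀ s ∈ Set.Icc (0:ℝ) 1, |(X s).trace| < 2) (Z0 Z1 : M2)
    (h0 : Z0.IsSymm ∧ Z0.det = 1 ∧ 0 < Z0 0 0 ∧ X 0 * Z0 * (X 0)ᵀ = Z0)
    (h1 : Z1.IsSymm ∧ Z1.det = 1 ∧ 0 < Z1 0 0 ∧ X 1 * Z1 * (X 1)ᵀ = Z1)
    (Q : ℕ → M2) (hQ : Tendsto Q atTop (𝓝 Z0)) :
    Tendsto (fun J : ℕ => PJ X J J * Q J * (PJ X J J)ᵀ) atTop (𝓝 Z1) := by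
  obtain ⟨σ, hσ, hσp⟩ := sign_const X hX hdet htr
  have h0m : (0:ℝ) ∈ Icc (0:ℝ) 1 := ⟨le_rfl, zero_le_one⟩
  have h1m : (1:ℝ) ∈ Icc (0:ℝ) 1 := ⟨zero_le_one, le_rfl⟩
  have hκ : ∀ s ∈ Icc (0:ℝ) 1, (σ / √(4 - (X s).trace ^ 2)) ^ 2 * (4 - (X s).trace ^ 2) = 1 := by
    intro s hs
    have hpos := tr_pos _ (htr s hs)
    have hsq : √(4 - (X s).trace ^ 2) ^ 2 = 4 - (X s).trace ^ 2 := Real.sq_sqrt hpos.le
    rw [div_pow, hσ, hsq]
    field_simp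
  have hκp : ∀ s ∈ Icc (0:ℝ) 1, 0 < σ / √(4 - (X s).trace ^ 2) * (-2 * X s 0 1) := by
    intro s hs
    have hpos := Real.sqrt_pos.mpr (tr_pos _ (htr s hs))
    have := div_pos (hσp s hs) hpos
    calc 0 < _ := this
      _ = _ := by ring
  have hZ0 : Z0 = ZZ X σ 0 :=
    uniq (X 0) Z0 (hdet 0) (htr 0 h0m) h0.1 h0.2.1 h0.2.2.1 h0.2.2.2 _ (hκ 0 h0m) (hκp 0 h0m)
  have hZ1 : Z1 = ZZ X σ 1 :=
    uniq (X 1) Z1 (hdet 1) (htr 1 h1m) h1.1 h1.2.1 h1.2.2.1 h1.2.2.2 _ (hκ 1 h1m) (hκp 1 h1m)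
  have hZc := ZZ_contDiffOn X hX htr σ
  obtain ⟨A, hA0, hA⟩ := step X hX hdet htr σ hσ
  obtain ⟨L, hL0, hL⟩ := lipM (ZZ X σ) (fun i j => (hZc i j).of_le (by norm_num))
  obtain ⟨T, hT0, hT⟩ := bddM (ZZ X σ) (fun i j => (hZc i j).continuousOn)
  set B : ℝ := 1 + 4 * (T ^ 2 * Real.exp (L * T)) with hBdef
  have hB0 : 0 ≤ B := by positivity
  have hmem : ∀ J : ℕ, 0 < J → ∀ k ≤ J, ((k : ℝ) / J) ∈ Icc (0:ℝ) 1 := by
    intro J hJ k hk
    have hJ' : (0:ℝ) < J := by exact_mod_cast hJ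
    refine ⟨by positivity, ?_⟩
    rw [div_le_one hJ']
    exact_mod_cast hk
  have hbd : ∀ J : ℕ, 0 < J → ∀ k ≤ J, nr (PJ X J k) ≤ B := by
    intro J hJ
    have hJ' : (0:ℝ) < J := by exact_mod_cast hJ
    apply bounded (fun k => X ((k : ℕ) / J)) (PJ X J) (fun k => ZZ X σ ((k : ℕ) / J)) J rfl
      (fun k => rfl) (fun k => hdet _) T L hT0 hL0
    · intro k hk
      ext i j
      have := congrFun (congrFun (MX_symm (X ((k:ℕ)/J))) i) j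
      simp only [ZZ, Matrix.transpose_apply, Matrix.smul_apply] at this ⊢
      rw [this]
    · intro k hk
      have hs := hmem J hJ k hk
      simp only [ZZ]
      rw [Matrix.det_smul, MX_det _ (hdet _)]
      simpa using hκ _ hs
    · intro k hk
      have hs := hmem J hJ k hk
      have := hκp _ hs
      simpa [ZZ, MX] using this
    · intro k hk
      have hs := hmem J hJ k hk
      have h2 := hT _ hs
      rw [Matrix.trace_fin_two]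
      have a1 := le_abs_self (ZZ X σ ((k : ℕ) / J) 0 0)
      have a2 := le_abs_self (ZZ X σ ((k : ℕ) / J) 1 1)
      have a3 := abs_nonneg (ZZ X σ ((k : ℕ) / J) 0 1)
      have a4 := abs_nonneg (ZZ X σ ((k : ℕ) / J) 1 0)
      simp only [nr] at h2
      linarith
    · intro k hk
      simp only [ZZ]
      rw [Matrix.mul_smul, Matrix.smul_mul, MX_fix _ (hdet _)]
    · intro k hk
      have hs := hmem J hJ k (by omega)
      have hs' := hmem J hJ (k+1) (by omega)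
      have h2 := hL _ hs _ hs'
      have e : |(((k + 1 : ℕ) : ℝ) / J) - (k : ℝ) / J| = 1 / J := by
        have : (((k + 1 : ℕ) : ℝ) / J) - (k : ℝ) / J = 1 / J := by
          push_cast
          ring
        rw [this, abs_of_pos (by positivity)]
      rw [e] at h2
      calc _ ≤ _ := h2
        _ = _ := by ring
  have hdisc : ∀ J : ℕ, 0 < J →
      nr (PJ X J J * (ZZ X σ 0 + (1 / (J:ℝ)) • WW X σ 0) * (PJ X J J)ᵀ
        - (ZZ X σ 1 + (1 / (J:ℝ)) • WW X σ 1)) ≤ B ^ 4 * (J * (A * (1 / (J:ℝ)) ^ 2)) := by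
    intro J hJ
    have hJ' : (0:ℝ) < J := by exact_mod_cast hJ
    have := discrete (fun k => X ((k : ℕ) / J)) (PJ X J)
      (fun k => ZZ X σ ((k : ℕ) / J) + (1 / (J:ℝ)) • WW X σ ((k:ℕ) / J)) J rfl (fun k => rfl)
      (fun k => hdet _) B (A * (1 / (J:ℝ)) ^ 2) (hbd J hJ) (by
        intro k hk
        apply hA _ (hmem J hJ k (by omega)) _ (hmem J hJ (k+1) (by omega)) (1 / (J:ℝ))
          (by positivity)
        push_cast
        ring)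
    have e1 : ((0:ℕ):ℝ) / J = 0 := by simp
    have e2 : (J:ℝ) / J = 1 := div_self hJ'.ne'
    simp only [e1, e2] at this
    exact this
  have hest : ∀ J : ℕ, 0 < J →
      nr (PJ X J J * Q J * (PJ X J J)ᵀ - Z1)
        ≤ (B ^ 4 * A + B ^ 2 * nr (WW X σ 0) + nr (WW X σ 1)) * (1 / (J:ℝ))
          + B ^ 2 * nr (Q J - Z0) := by
    intro J hJ
    have hJ' : (0:ℝ) < J := by exact_mod_cast hJ
    set P := PJ X J J
    have hP : nr P ≤ B := hbd J hJ J le_rfl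
    have hPsq : nr P ^ 2 ≤ B ^ 2 := by
      have := nr_nonneg P
      gcongr
    have e : P * Q J * Pᵀ - Z1
        = (P * (ZZ X σ 0 + (1 / (J:ℝ)) • WW X σ 0) * Pᵀ - (ZZ X σ 1 + (1 / (J:ℝ)) • WW X σ 1))
          + (P * (Q J - Z0) * Pᵀ + ((1 / (J:ℝ)) • WW X σ 1 + -(P * ((1 / (J:ℝ)) • WW X σ 0) * Pᵀ))) := by
      rw [hZ0, hZ1]
      simp only [Matrix.mul_add, Matrix.add_mul, Matrix.mul_sub, Matrix.sub_mul]
      abel
    rw [e]
    have a1 := nr_add (P * (ZZ X σ 0 + (1 / (J:ℝ)) • WW X σ 0) * Pᵀ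
      - (ZZ X σ 1 + (1 / (J:ℝ)) • WW X σ 1))
      (P * (Q J - Z0) * Pᵀ + ((1 / (J:ℝ)) • WW X σ 1 + -(P * ((1 / (J:ℝ)) • WW X σ 0) * Pᵀ)))
    have a2 := nr_add (P * (Q J - Z0) * Pᵀ)
      ((1 / (J:ℝ)) • WW X σ 1 + -(P * ((1 / (J:ℝ)) • WW X σ 0) * Pᵀ))
    have a3 := nr_add ((1 / (J:ℝ)) • WW X σ 1) (-(P * ((1 / (J:ℝ)) • WW X σ 0) * Pᵀ))
    rw [nr_neg] at a3
    have b1 : nr (P * (Q J - Z0) * Pᵀ) ≤ B ^ 2 * nr (Q J - Z0) := by
      have c1 := nr_conj P (Q J - Z0)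
      have c2 := nr_nonneg (Q J - Z0)
      calc _ ≤ _ := c1
        _ ≤ _ := by gcongr
    have b2 : nr ((1 / (J:ℝ)) • WW X σ 1) = (1 / (J:ℝ)) * nr (WW X σ 1) := by
      rw [nr_smul, abs_of_pos (by positivity)]
    have b3 : nr (P * ((1 / (J:ℝ)) • WW X σ 0) * Pᵀ) ≤ B ^ 2 * ((1 / (J:ℝ)) * nr (WW X σ 0)) := by
      have c1 := nr_conj P ((1 / (J:ℝ)) • WW X σ 0)
      rw [nr_smul, abs_of_pos (by positivity : (0:ℝ) < 1 / (J:ℝ))] at c1
      have c2 := nr_nonneg (WW X σ 0)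
      calc _ ≤ _ := c1
        _ ≤ _ := by gcongr
    have b4 := hdisc J hJ
    have b5 : B ^ 4 * (J * (A * (1 / (J:ℝ)) ^ 2)) = B ^ 4 * A * (1 / (J:ℝ)) := by
      field_simp
    rw [b5] at b4
    have : (B ^ 4 * A + B ^ 2 * nr (WW X σ 0) + nr (WW X σ 1)) * (1 / (J:ℝ))
          + B ^ 2 * nr (Q J - Z0)
        = B ^ 4 * A * (1 / (J:ℝ)) + (B ^ 2 * nr (Q J - Z0) + ((1 / (J:ℝ)) * nr (WW X σ 1)
          + B ^ 2 * ((1 / (J:ℝ)) * nr (WW X σ 0)))) := by ring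
    rw [this]
    linarith
  -- limits
  have hQij : ∀ i j, Tendsto (fun J => Q J i j) atTop (𝓝 (Z0 i j)) := by
    intro i j
    exact ((continuous_id.matrix_elem i j).tendsto Z0).comp hQ
  have hQn : Tendsto (fun J => nr (Q J - Z0)) atTop (𝓝 0) := by
    have : ∀ i j, Tendsto (fun J => |(Q J - Z0) i j|) atTop (𝓝 0) := by
      intro i j
      have h2 : Tendsto (fun J => Q J i j - Z0 i j) atTop (𝓝 (Z0 i j - Z0 i j)) :=
        (hQij i j).sub tendsto_const_nhds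
      rw [sub_self] at h2
      have h3 := h2.abs
      simpa using h3
    have h2 := (((this 0 0).add (this 0 1)).add (this 1 0)).add (this 1 1)
    simpa [nr] using h2
  have hlim : Tendsto (fun J : ℕ => (B ^ 4 * A + B ^ 2 * nr (WW X σ 0) + nr (WW X σ 1)) * (1 / (J:ℝ))
          + B ^ 2 * nr (Q J - Z0)) atTop (𝓝 0) := by
    have h2 : Tendsto (fun J : ℕ => (B ^ 4 * A + B ^ 2 * nr (WW X σ 0) + nr (WW X σ 1)) * (1 / (J:ℝ)))
        atTop (𝓝 ((B ^ 4 * A + B ^ 2 * nr (WW X σ 0) + nr (WW X σ 1)) * 0)) :=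
      tendsto_one_div_atTop_nhds_zero_nat.const_mul _
    have h3 := h2.add (hQn.const_mul (B ^ 2))
    simpa using h3
  refine tendsto_pi_nhds.mpr fun i => tendsto_pi_nhds.mpr fun j => ?_
  rw [tendsto_iff_norm_sub_tendsto_zero]
  refine squeeze_zero' (Eventually.of_forall fun J => norm_nonneg _) ?_ hlim
  filter_upwards [eventually_gt_atTop 0] with J hJ
  refine le_trans ?_ (hest J hJ)
  have := abs_le_nr (PJ X J J * Q J * (PJ X J J)ᵀ - Z1) i j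
  rw [Real.norm_eq_abs]
  simpa using this

end Pool.Agent.H252R3.SC3
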