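import Pool.Agent.H252R3.Iter

set_option autoImplicit false

/-! Small values of quadratic forms in variables restricted to `0` and `1`: a polynomial bound. -/

namespace Pool.Agent.H252R3

theorem small_value {A : ℕ → ℕ → ℝ} (hA : ∀ i j, A i j = A j i) (n : ℕ) (hn : 1 ≤ n)
    (U : Finset ℕ) (hU : 10 ^ 9 * n ^ 50 ≤ U.card) :
    ∃ S ⊆ U, S.Nonempty ∧ nint (FF A S) ≤ 1 / n := by
  by_contra hcon
  push Not at hcon
  have hn0 : (0 : ℝ) < n := by exact_mod_cast hn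
  have hn1 : (1 : ℝ) ≤ n := by exact_mod_cast hn
  obtain ⟨δ, hδ⟩ : ∃ δ : ℝ, δ = 1 / (2304 * n ^ 19) := ⟨_, rfl⟩
  have hδ0 : 0 < δ := by rw [hδ]; positivity
  have hη : (0 : ℝ) < 1 / n := by positivity
  have hK : 1 / (2 * (1 / (n : ℝ)) ^ 2) ≤ ((n ^ 2 : ℕ) : ℝ) := by
    have : 1 / (2 * (1 / (n : ℝ)) ^ 2) = n ^ 2 / 2 := by field_simp
    rw [this]
    push_cast
    linarith [(by positivity : (0 : ℝ) ≤ (n : ℝ) ^ 2)]
  have hm : 8 * (n ^ 2) ^ 2 ≤ 8 * n ^ 4 := by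
    rw [← pow_mul]
  have hsize : ((6 * n ^ 8 : ℕ) : ℝ) * (((8 * n ^ 4 : ℕ) : ℝ) +
      Real.log (8 * ((n ^ 2 : ℕ) : ℝ) ^ 2) / (2 * δ ^ 2)) ≤ U.card := by
    have h1 : Real.log (8 * ((n ^ 2 : ℕ) : ℝ) ^ 2) ≤ 8 * n ^ 4 := by
      have h2 : (8 * ((n ^ 2 : ℕ) : ℝ) ^ 2) = 8 * n ^ 4 := by push_cast; ring
      rw [h2]
      exact (Real.log_le_self (by positivity))
    have h3 : Real.log (8 * ((n ^ 2 : ℕ) : ℝ) ^ 2) / (2 * δ ^ 2) ≤ 21233664 * n ^ 42 := by
      rw [div_le_iff₀ (by positivity)]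
      refine h1.trans (le_of_eq ?_)
      rw [hδ]
      field_simp
      norm_num
    have h4 : (n : ℝ) ^ 4 ≤ n ^ 42 := pow_le_pow_right₀ hn1 (by norm_num)
    have h5 : ((10 ^ 9 * n ^ 50 : ℕ) : ℝ) ≤ U.card := by exact_mod_cast hU
    refine le_trans ?_ h5
    push_cast
    calc (6 : ℝ) * n ^ 8 * (8 * n ^ 4 + Real.log (8 * ((n : ℝ) ^ 2) ^ 2) / (2 * δ ^ 2))
        ≤ 6 * n ^ 8 * (8 * n ^ 42 + 21233664 * n ^ 42) := by
          push_cast at h3
          gcongr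
      _ ≤ 1000000000 * (n : ℝ) ^ 50 := by
          have h6 : (n : ℝ) ^ 50 = n ^ 8 * n ^ 42 := by ring
          rw [h6]
          nlinarith [(by positivity : (0 : ℝ) ≤ (n : ℝ) ^ 8 * n ^ 42)]
  obtain ⟨w, k, hw1, hw2⟩ := iterate hA hη (n ^ 2) (8 * n ^ 4) hK hm hδ0 (6 * n ^ 8) U hsize
    (fun S hS hne => (hcon S hS hne).le)
  -- a common frequency
  obtain ⟨k₀, hk₀, hfib⟩ := Finset.exists_le_card_fiber_of_mul_le_card_of_maps_to
    (s := Finset.range (6 * n ^ 8)) (t := Finset.range (n ^ 2)) (f := k) (n := 6 * n ^ 6)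
    (fun r hr => Finset.mem_range.mpr (hw1 r (Finset.mem_range.mp hr)).1)
    (Finset.nonempty_range_iff.mpr (by positivity))
    (by rw [Finset.card_range, Finset.card_range]; apply le_of_eq; ring)
  obtain ⟨I, hIsub, hIcard⟩ := Finset.exists_subset_card_eq hfib
  have hI : ∀ r ∈ I, r < 6 * n ^ 8 ∧ k r = k₀ := by
    intro r hr
    have := hIsub hr
    rw [Finset.mem_filter, Finset.mem_range] at this
    exact this
  rw [Finset.mem_range] at hk₀
  have hInonempty : I.Nonempty := by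
    rw [← Finset.card_pos, hIcard]; positivity
  have hk1 : 1 ≤ k₀ := by
    obtain ⟨r, hr⟩ := hInonempty
    obtain ⟨h1, h2⟩ := hI r hr
    rw [← h2]
    exact (hw1 r h1).2.1
  -- pairwise properties
  have hdisj : (I : Set ℕ).PairwiseDisjoint w := by
    intro r hr s hs hrs
    rcases lt_or_gt_of_ne hrs with h | h
    · exact (hw2 r s h (hI s hs).1).1
    · exact ((hw2 s r h (hI r hr).1).1).symm
  have hpair : ∀ r ∈ I, ∀ s ∈ I, r < s →
      nint (2 * k₀ * BB A (w r) (w s)) ≤ 8 * n ^ 4 * δ := by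
    intro r hr s hs h
    have h1 := (hw2 r s h (hI s hs).1).2
    rw [(hI r hr).2] at h1
    rw [BB_eq_sum_right, Finset.mul_sum]
    refine (nint_sum_le _ _).trans ((Finset.sum_le_card_nsmul _ _ _ h1).trans ?_)
    rw [nsmul_eq_mul]
    have h2 : ((w s).card : ℝ) ≤ 8 * n ^ 4 := by exact_mod_cast (hw1 s (hI s hs).1).2.2.2.2
    gcongr
  have hpair' : ∀ r ∈ I, ∀ s ∈ I, r ≠ s →
      nint (2 * k₀ * BB A (w r) (w s)) ≤ 8 * n ^ 4 * δ := by
    intro r hr s hs h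
    rcases lt_or_gt_of_ne h with h | h
    · exact hpair r hr s hs h
    · rw [BB_symm hA]
      exact hpair s hs r hr h
  -- groups
  have hgr : 2 * n * (k₀ ^ 2 * (2 * n) + 1) ≤ I.card := by
    rw [hIcard]
    have h1 : k₀ ^ 2 ≤ n ^ 4 := by
      calc k₀ ^ 2 ≤ (n ^ 2) ^ 2 := Nat.pow_le_pow_left hk₀.le 2
        _ = n ^ 4 := by ring
    have h2 : n ≤ n ^ 6 := Nat.le_self_pow (by norm_num) n
    calc 2 * n * (k₀ ^ 2 * (2 * n) + 1) ≤ 2 * n * (n ^ 4 * (2 * n) + 1) := by gcongr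
      _ = 4 * n ^ 6 + 2 * n := by ring
      _ ≤ 6 * n ^ 6 := by omega
  obtain ⟨G, hG1, hG2⟩ := groups k₀ (2 * n) hk1
    (fun i j => ((round (2 * k₀ * BB A (w i) (w j)) : ℤ) : ZMod k₀)) (2 * n) le_rfl I hgr
  have hGdis : ∀ b < 2 * n, ((G b : Finset ℕ) : Set ℕ).PairwiseDisjoint w := by
    intro b hb
    exact hdisj.subset (Finset.coe_subset.mpr (hG1 b hb).1)
  set W : ℕ → Finset ℕ := fun b => (G b).biUnion w with hW
  have hWdis : ∀ a b, a < b → b < 2 * n → Disjoint (W a) (W b) := by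
    intro a b hab hb
    rw [hW]
    simp only
    rw [Finset.disjoint_biUnion_left]
    intro i hi
    rw [Finset.disjoint_biUnion_right]
    intro j hj
    apply hdisj ((hG1 a (by omega)).1 hi) ((hG1 b hb).1 hj)
    rintro rfl
    exact Finset.disjoint_left.mp (hG2 a b hab hb).1 hi hj
  have hWcross : ∀ a b, a < b → b < 2 * n → nint (2 * BB A (W a) (W b)) ≤
      (6 * n ^ 6) * (6 * n ^ 6) * (8 * n ^ 4 * δ) := by
    intro a b hab hb
    have h1 := cross_le hk1 w (G a) (G b) (hGdis a (by omega)) (hGdis b hb)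
      (ε := 8 * n ^ 4 * δ) (A := A) (by
        intro i hi j hj
        apply hpair' i ((hG1 a (by omega)).1 hi) j ((hG1 b hb).1 hj)
        rintro rfl
        exact Finset.disjoint_left.mp (hG2 a b hab hb).1 hi hj) (hG2 a b hab hb).2
    refine h1.trans ?_
    have h2 : ((G a).card : ℝ) ≤ 6 * n ^ 6 := by
      have := Finset.card_le_card (hG1 a (by omega)).1
      rw [hIcard] at this
      exact_mod_cast this
    have h3 : ((G b).card : ℝ) ≤ 6 * n ^ 6 := by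
      have := Finset.card_le_card (hG1 b hb).1
      rw [hIcard] at this
      exact_mod_cast this
    gcongr
  obtain ⟨a, b, hab, hb, hlin⟩ := exists_block (fun c => FF A (W c)) (2 * n) (by omega)
  have hblk := FF_blocks hA W (2 * n) hWdis (by positivity) hWcross a b hab.le hb
  -- the final set
  set S := (Finset.Ico a b).biUnion W with hS
  have hSU : S ⊆ U := by
    rw [hS]
    apply Finset.biUnion_subset.mpr
    intro c hc
    rw [Finset.mem_Ico] at hc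
    apply Finset.biUnion_subset.mpr
    intro i hi
    exact (hw1 i (hI i ((hG1 c (by omega)).1 hi)).1).2.2.1
  have hSne : S.Nonempty := by
    obtain ⟨i, hi⟩ := (hG1 a (by omega)).2
    obtain ⟨x, hx⟩ := (hw1 i (hI i ((hG1 a (by omega)).1 hi)).1).2.2.2.1
    refine ⟨x, ?_⟩
    rw [hS, Finset.mem_biUnion]
    exact ⟨a, Finset.mem_Ico.mpr ⟨le_rfl, hab⟩, Finset.mem_biUnion.mpr ⟨i, hi, hx⟩⟩
  have h1 := hcon S hSU hSne
  have h2 : nint (FF A S) ≤ nint (FF A S - ∑ c ∈ Finset.Ico a b, FF A (W c)) +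
      nint (∑ c ∈ Finset.Ico a b, FF A (W c)) := by
    have h3 := nint_add_le (FF A S - ∑ c ∈ Finset.Ico a b, FF A (W c))
      (∑ c ∈ Finset.Ico a b, FF A (W c))
    rwa [sub_add_cancel] at h3
  have h3 : ((2 * n : ℕ) : ℝ) ^ 2 * ((6 * n ^ 6) * (6 * n ^ 6) * (8 * n ^ 4 * δ)) = 1 / (2 * n) := by
    rw [hδ]; push_cast; field_simp; norm_num
  rw [h3] at hblk
  push_cast at hlin
  have h4 : 1 / (2 * (n : ℝ)) + 1 / (2 * n) = 1 / n := by field_simp; norm_num
  linarith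

end Pool.Agent.H252R3
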