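import Pool.Agent.H252R3.Fejer

set_option autoImplicit false

/-! The Weyl step for quadratic forms in variables restricted to `0` and `1`. -/

namespace Pool.Agent.H252R3

/-- The bilinear form of `A` evaluated at the indicators of two finite sets. -/
def BB (A : ℕ → ℕ → ℝ) (S T : Finset ℕ) : ℝ := ∑ i ∈ S, ∑ j ∈ T, A i j

/-- The quadratic form of `A` evaluated at the indicator of a finite set. -/
def FF (A : ℕ → ℕ → ℝ) (S : Finset ℕ) : ℝ := BB A S S

lemma BB_union_left (A : ℕ → ℕ → ℝ) {S S' : Finset ℕ} (h : Disjoint S S') (T : Finset ℕ) :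
    BB A (S ∪ S') T = BB A S T + BB A S' T := by
  rw [BB, Finset.sum_union h]; rfl

lemma BB_union_right (A : ℕ → ℕ → ℝ) (S : Finset ℕ) {T T' : Finset ℕ} (h : Disjoint T T') :
    BB A S (T ∪ T') = BB A S T + BB A S T' := by
  simp only [BB]
  rw [← Finset.sum_add_distrib]
  exact Finset.sum_congr rfl fun i _ => Finset.sum_union h

lemma BB_symm {A : ℕ → ℕ → ℝ} (hA : ∀ i j, A i j = A j i) (S T : Finset ℕ) :
    BB A S T = BB A T S := by
  simp only [BB]
  rw [Finset.sum_comm]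
  exact Finset.sum_congr rfl fun i _ => Finset.sum_congr rfl fun j _ => hA _ _

lemma FF_union {A : ℕ → ℕ → ℝ} (hA : ∀ i j, A i j = A j i) {S T : Finset ℕ} (h : Disjoint S T) :
    FF A (S ∪ T) = FF A S + FF A T + 2 * BB A S T := by
  simp only [FF]
  rw [BB_union_left A h, BB_union_right A _ h, BB_union_right A _ h, BB_symm hA T S]
  ring

lemma BB_eq_sum_right (A : ℕ → ℕ → ℝ) (S T : Finset ℕ) :
    BB A S T = ∑ j ∈ T, BB A S {j} := by
  simp only [BB, Finset.sum_singleton]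
  rw [Finset.sum_comm]

lemma sum_powerset_ee (Z : Finset ℕ) (θ : ℕ → ℝ) :
    ∑ z ∈ Z.powerset, ee (∑ i ∈ z, θ i) = ∏ i ∈ Z, (1 + ee (θ i)) := by
  rw [Finset.prod_one_add]
  exact Finset.sum_congr rfl fun z _ => ee_sum z θ

/-- The chain of initial segments of an enumeration. -/
def seg (y : ℕ → ℕ) (s t : ℕ) : Finset ℕ := (Finset.Ico s t).image y

lemma seg_union (y : ℕ → ℕ) {s t : ℕ} (h : s ≤ t) : seg y 0 t = seg y 0 s ∪ seg y s t := by
  rw [seg, seg, seg, ← Finset.image_union, Finset.Ico_union_Ico_eq_Ico (Nat.zero_le s) h]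

lemma seg_disjoint {y : ℕ → ℕ} {m : ℕ} (hy : Set.InjOn y (Set.Iio m)) {s t : ℕ} (_hs : s ≤ t)
    (ht : t ≤ m) : Disjoint (seg y 0 s) (seg y s t) := by
  rw [seg, seg, Finset.disjoint_left]
  intro a h1 h2
  rw [Finset.mem_image] at h1 h2
  obtain ⟨i, hi, rfl⟩ := h1
  obtain ⟨j, hj, hij⟩ := h2
  rw [Finset.mem_Ico] at hi hj
  have := hy (Set.mem_Iio.mpr (by omega : j < m)) (Set.mem_Iio.mpr (by omega : i < m)) hij
  omega

lemma weyl_step {A : ℕ → ℕ → ℝ} (hA : ∀ i j, A i j = A j i) {η : ℝ} (hη : 0 < η) (K m : ℕ)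
    (hK : 1 / (2 * η ^ 2) ≤ K) (hm : 8 * K ^ 2 ≤ m) (y : ℕ → ℕ) (hy : Set.InjOn y (Set.Iio m))
    (Z : Finset ℕ) (hdisj : Disjoint (seg y 0 m) Z)
    (hF : ∀ S ⊆ seg y 0 m ∪ Z, S.Nonempty → η ≤ nint (FF A S)) :
    ∃ k : ℕ, 1 ≤ k ∧ k < K ∧ ∃ s t : ℕ, s < t ∧ t ≤ m ∧
      (2 : ℝ) ^ Z.card / (8 * K ^ 2) ≤ ∏ i ∈ Z, ‖1 + ee (2 * k * BB A (seg y s t) {i})‖ := by
  have hK0 : (0 : ℝ) < K := lt_of_lt_of_le (by positivity) hK
  have hK1 : 1 ≤ K := by exact_mod_cast hK0
  have hm1 : 1 ≤ m := by nlinarith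
  have hm0 : (0 : ℝ) < m := by exact_mod_cast hm1
  set Ω := (Finset.range m) ×ˢ Z.powerset with hΩ
  have hcard : Ω.card = m * 2 ^ Z.card := by
    rw [hΩ, Finset.card_product, Finset.card_range, Finset.card_powerset]
  have hne : Ω.Nonempty := by
    rw [← Finset.card_pos, hcard]; positivity
  obtain ⟨k, hk1, hkK, hk⟩ := exists_large_sum Ω hne (fun ω => FF A (seg y 0 (ω.1 + 1) ∪ ω.2)) hη
    (by
      rintro ⟨t, z⟩ htz
      rw [hΩ, Finset.mem_product, Finset.mem_range, Finset.mem_powerset] at htz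
      apply hF
      · apply Finset.union_subset_union _ htz.2
        apply Finset.image_subset_image
        intro a ha
        rw [Finset.mem_Ico] at ha ⊢
        have := htz.1
        simp only at ha
        omega
      · refine ⟨y 0, Finset.mem_union_left _ ?_⟩
        exact Finset.mem_image_of_mem _ (Finset.mem_Ico.mpr ⟨le_rfl, Nat.succ_pos _⟩)) K hK
  refine ⟨k, hk1, hkK, ?_⟩
  by_contra hcon
  push Not at hcon
  -- separate the variables
  have hdis : ∀ t ≤ m, ∀ z ∈ Z.powerset, Disjoint (seg y 0 t) z := by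
    intro t ht z hz
    rw [Finset.mem_powerset] at hz
    refine Disjoint.mono ?_ hz hdisj
    apply Finset.image_subset_image
    exact Finset.Ico_subset_Ico le_rfl ht
  obtain ⟨u, hu⟩ : ∃ u : Finset ℕ → ℕ → ℂ, u = fun z t =>
      ee (k * (FF A (seg y 0 (t + 1)) + 2 * BB A (seg y 0 (t + 1)) z)) := ⟨_, rfl⟩
  have h1 : ‖∑ ω ∈ Ω, ee (k * FF A (seg y 0 (ω.1 + 1) ∪ ω.2))‖ ≤
      ∑ z ∈ Z.powerset, ‖∑ t ∈ Finset.range m, u z t‖ := by
    rw [hΩ, Finset.sum_product, Finset.sum_comm]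
    refine (norm_sum_le _ _).trans (Finset.sum_le_sum fun z hz => ?_)
    have h2 : ∑ t ∈ Finset.range m, ee (k * FF A (seg y 0 (t + 1) ∪ z)) =
        ee (k * FF A z) * ∑ t ∈ Finset.range m, u z t := by
      rw [Finset.mul_sum]
      refine Finset.sum_congr rfl fun t ht => ?_
      rw [Finset.mem_range] at ht
      rw [FF_union hA (hdis (t + 1) (by omega) z hz), hu, ← ee_add]
      congr 1
      ring
    simp only
    rw [h2, norm_mul, norm_ee, one_mul]
  -- Cauchy–Schwarz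
  have h2 : (∑ z ∈ Z.powerset, ‖∑ t ∈ Finset.range m, u z t‖) ^ 2 ≤
      2 ^ Z.card * ∑ z ∈ Z.powerset, ‖∑ t ∈ Finset.range m, u z t‖ ^ 2 := by
    have := sq_sum_le_card_mul_sum_sq (s := Z.powerset)
      (f := fun z => ‖∑ t ∈ Finset.range m, u z t‖)
    rw [Finset.card_powerset] at this
    push_cast at this
    exact this
  -- expand the square
  have h3 : ((∑ z ∈ Z.powerset, (‖∑ t ∈ Finset.range m, u z t‖ ^ 2 : ℝ) : ℝ) : ℂ) =
      ∑ t ∈ Finset.range m, ∑ s ∈ Finset.range m, ∑ z ∈ Z.powerset,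
        u z t * (starRingEnd ℂ) (u z s) := by
    push_cast
    have h4 : ∀ z ∈ Z.powerset, ((‖∑ t ∈ Finset.range m, u z t‖ : ℂ) ^ 2) =
        ∑ t ∈ Finset.range m, ∑ s ∈ Finset.range m, u z t * (starRingEnd ℂ) (u z s) := by
      intro z _
      rw [← Complex.mul_conj', map_sum, Finset.sum_mul_sum]
    rw [Finset.sum_congr rfl h4, Finset.sum_comm]
    refine Finset.sum_congr rfl fun k _ => ?_
    rw [Finset.sum_comm]
  -- the inner sums
  obtain ⟨Q, hQ⟩ : ∃ Q : ℝ, Q = (2 : ℝ) ^ Z.card / (8 * K ^ 2) := ⟨_, rfl⟩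
  have h4 : ∀ t < m, ∀ s < t, ‖∑ z ∈ Z.powerset, u z t * (starRingEnd ℂ) (u z s)‖ ≤ Q := by
    intro t ht s hs
    have h5 : ∀ z ∈ Z.powerset, u z t * (starRingEnd ℂ) (u z s) =
        ee (k * (FF A (seg y 0 (t + 1)) - FF A (seg y 0 (s + 1)))) *
          ee (∑ i ∈ z, 2 * k * BB A (seg y (s + 1) (t + 1)) {i}) := by
      intro z _
      rw [hu]
      simp only
      rw [ee_mul_conj, ← ee_add]
      congr 1
      rw [← Finset.mul_sum, ← BB_eq_sum_right]
      have h6 : BB A (seg y 0 (t + 1)) z = BB A (seg y 0 (s + 1)) z +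
          BB A (seg y (s + 1) (t + 1)) z := by
        rw [seg_union y (by omega : s + 1 ≤ t + 1),
          BB_union_left A (seg_disjoint hy (by omega) (by omega))]
      rw [h6]
      ring
    rw [Finset.sum_congr rfl h5, ← Finset.mul_sum, norm_mul, norm_ee, one_mul,
      sum_powerset_ee, norm_prod, hQ]
    exact (hcon (s + 1) (t + 1) (by omega) (by omega)).le
  have h5 : ∀ t ∈ Finset.range m, ∀ s ∈ Finset.range m,
      ‖∑ z ∈ Z.powerset, u z t * (starRingEnd ℂ) (u z s)‖ ≤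
        if s = t then (2 : ℝ) ^ Z.card else Q := by
    intro t ht s hs
    rw [Finset.mem_range] at ht hs
    split_ifs with hst
    · refine (norm_sum_le _ _).trans ?_
      have h6 : ∀ z ∈ Z.powerset, ‖u z t * (starRingEnd ℂ) (u z s)‖ ≤ 1 := by
        intro z _
        rw [norm_mul, Complex.norm_conj, hu]
        simp [norm_ee]
      refine (Finset.sum_le_sum h6).trans (le_of_eq ?_)
      rw [Finset.sum_const, Finset.card_powerset, nsmul_eq_mul]
      push_cast
      ring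
    · rcases lt_or_gt_of_ne hst with h | h
      · exact h4 t ht s h
      · have h6 : ∑ z ∈ Z.powerset, u z t * (starRingEnd ℂ) (u z s) =
            (starRingEnd ℂ) (∑ z ∈ Z.powerset, u z s * (starRingEnd ℂ) (u z t)) := by
          rw [map_sum]
          refine Finset.sum_congr rfl fun z _ => ?_
          rw [map_mul, Complex.conj_conj, mul_comm]
        rw [h6, Complex.norm_conj]
        exact h4 s hs t h
  have hQ0 : 0 < Q := by rw [hQ]; positivity
  have h6 : ∑ z ∈ Z.powerset, (‖∑ t ∈ Finset.range m, u z t‖ ^ 2 : ℝ) ≤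
      m * 2 ^ Z.card + m * (m - 1) * Q := by
    have h7 : ∑ z ∈ Z.powerset, (‖∑ t ∈ Finset.range m, u z t‖ ^ 2 : ℝ) =
        ‖((∑ z ∈ Z.powerset, (‖∑ t ∈ Finset.range m, u z t‖ ^ 2 : ℝ) : ℝ) : ℂ)‖ := by
      rw [Complex.norm_real, Real.norm_of_nonneg (Finset.sum_nonneg fun ω _ => by positivity)]
    rw [h7, h3]
    refine (norm_sum_le _ _).trans ?_
    have h8 : ∀ t ∈ Finset.range m, ‖∑ s ∈ Finset.range m, ∑ z ∈ Z.powerset,
        u z t * (starRingEnd ℂ) (u z s)‖ ≤ 2 ^ Z.card + (m - 1) * Q := by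
      intro t ht
      refine (norm_sum_le _ _).trans ((Finset.sum_le_sum (h5 t ht)).trans (le_of_eq ?_))
      rw [← Finset.add_sum_erase _ _ ht, if_pos rfl]
      congr 1
      rw [Finset.sum_congr rfl (g := fun _ => Q)
        (fun s hs => if_neg (Finset.ne_of_mem_erase hs)), Finset.sum_const,
        Finset.card_erase_of_mem ht, Finset.card_range, nsmul_eq_mul, Nat.cast_sub hm1]
      push_cast
      ring
    refine (Finset.sum_le_sum h8).trans (le_of_eq ?_)
    rw [Finset.sum_const, Finset.card_range, nsmul_eq_mul]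
    ring
  -- conclude
  rw [hcard] at hk
  have h7 := hk.trans h1
  have h8 : ((m : ℝ) * 2 ^ Z.card / (2 * K)) ^ 2 ≤
      2 ^ Z.card * (m * 2 ^ Z.card + m * (m - 1) * Q) := by
    have h9 : (0 : ℝ) ≤ ((m * 2 ^ Z.card : ℕ) : ℝ) / (2 * K) := by positivity
    have h10 := pow_le_pow_left₀ h9 h7 2
    push_cast at h10
    refine h10.trans (h2.trans ?_)
    gcongr
  have h9 : ((m : ℝ) * 2 ^ Z.card / (2 * K)) ^ 2 = 2 ^ Z.card * (m * (2 * m * Q)) := by
    rw [hQ]; field_simp; ring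
  rw [h9] at h8
  have h10 : (m : ℝ) * (2 * m * Q) ≤ m * 2 ^ Z.card + m * (m - 1) * Q :=
    le_of_mul_le_mul_left h8 (by positivity)
  have h11 : (2 : ℝ) ^ Z.card ≤ m * Q := by
    have h12 : (8 : ℝ) * K ^ 2 ≤ m := by exact_mod_cast hm
    have h13 : (2 : ℝ) ^ Z.card = (8 * K ^ 2) * Q := by rw [hQ]; field_simp
    rw [h13]
    gcongr
  nlinarith [mul_pos hm0 hQ0]

/-- The Weyl step in the form used below: most coordinates are almost orthogonal to some set. -/
lemma weyl_step' {A : ℕ → ℕ → ℝ} (hA : ∀ i j, A i j = A j i) {η : ℝ} (hη : 0 < η) (K m : ℕ)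
    (hK : 1 / (2 * η ^ 2) ≤ K) (hm : 8 * K ^ 2 ≤ m) {δ : ℝ} (hδ : 0 < δ) (U : Finset ℕ)
    (hU : m ≤ U.card) (hF : ∀ S ⊆ U, S.Nonempty → η ≤ nint (FF A S)) :
    ∃ k : ℕ, 1 ≤ k ∧ k < K ∧ ∃ w U' : Finset ℕ, w ⊆ U ∧ w.Nonempty ∧ w.card ≤ m ∧ U' ⊆ U ∧
      Disjoint w U' ∧ (U.card : ℝ) - m - Real.log (8 * K ^ 2) / (2 * δ ^ 2) ≤ U'.card ∧
      ∀ i ∈ U', nint (2 * k * BB A w {i}) ≤ δ := by
  classical
  have hK0 : (0 : ℝ) < K := lt_of_lt_of_le (by positivity) hK
  obtain ⟨Y, hYU, hYm⟩ := Finset.exists_subset_card_eq hU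
  -- enumerate `Y`
  obtain ⟨y, hyinj, hyY⟩ : ∃ y : ℕ → ℕ, Set.InjOn y (Set.Iio m) ∧ seg y 0 m = Y := by
    have e := Y.equivFinOfCardEq hYm
    refine ⟨fun i => if h : i < m then (e.symm ⟨i, h⟩ : ℕ) else 0, ?_, ?_⟩
    · intro i hi j hj hij
      rw [Set.mem_Iio] at hi hj
      simp only [hi, hj, dif_pos] at hij
      have := e.symm.injective (Subtype.ext hij)
      simpa using this
    · ext a
      rw [seg, Finset.mem_image]
      constructor
      · rintro ⟨i, hi, rfl⟩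
        rw [Finset.mem_Ico] at hi
        simp only [hi.2, dif_pos]
        exact (e.symm ⟨i, hi.2⟩).2
      · intro ha
        refine ⟨(e ⟨a, ha⟩ : ℕ), Finset.mem_Ico.mpr ⟨Nat.zero_le _, (e ⟨a, ha⟩).2⟩, ?_⟩
        simp
  set Z := U \ Y with hZ
  have hdis : Disjoint (seg y 0 m) Z := by rw [hyY]; exact Finset.disjoint_sdiff
  have hcov : seg y 0 m ∪ Z = U := by rw [hyY, hZ, Finset.union_sdiff_of_subset hYU]
  obtain ⟨k, hk1, hkK, s, t, hst, htm, hprod⟩ := weyl_step hA hη K m hK hm y hyinj Z hdis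
    (by rw [hcov]; exact hF)
  have hwY : seg y s t ⊆ Y := by
    rw [← hyY]
    exact Finset.image_subset_image (Finset.Ico_subset_Ico (Nat.zero_le _) htm)
  refine ⟨k, hk1, hkK, seg y s t, Z.filter fun i => nint (2 * k * BB A (seg y s t) {i}) ≤ δ,
    hwY.trans hYU, ?_, ?_, ?_, ?_, ?_, ?_⟩
  · exact ⟨y s, Finset.mem_image_of_mem _ (Finset.mem_Ico.mpr ⟨le_rfl, hst⟩)⟩
  · exact hYm ▸ Finset.card_le_card hwY
  · exact (Finset.filter_subset _ _).trans Finset.sdiff_subset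
  · exact Disjoint.mono hwY (Finset.filter_subset _ _) Finset.disjoint_sdiff
  · -- the number of bad coordinates
    set G := Z.filter fun i => nint (2 * k * BB A (seg y s t) {i}) ≤ δ with hG
    set B := Z.filter fun i => ¬ nint (2 * k * BB A (seg y s t) {i}) ≤ δ with hB
    have h1 : G.card + B.card = Z.card := Finset.card_filter_add_card_filter_not (s := Z) _
    have h2 : Z.card = U.card - m := by rw [hZ, Finset.card_sdiff_of_subset hYU, hYm]
    have h3 : ∏ i ∈ Z, ‖1 + ee (2 * k * BB A (seg y s t) {i})‖ ≤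
        2 ^ Z.card * Real.exp (-(2 * δ ^ 2) * B.card) := by
      rw [← Finset.prod_filter_mul_prod_filter_not Z
        (fun i => nint (2 * k * BB A (seg y s t) {i}) ≤ δ)]
      have h4 : ∏ i ∈ G, ‖1 + ee (2 * k * BB A (seg y s t) {i})‖ ≤ 2 ^ G.card := by
        rw [← Finset.prod_const]
        refine Finset.prod_le_prod (fun i _ => norm_nonneg _) fun i _ => ?_
        refine (norm_add_le _ _).trans ?_
        rw [norm_one, norm_ee]
        norm_num
      have h5 : ∏ i ∈ B, ‖1 + ee (2 * k * BB A (seg y s t) {i})‖ ≤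
          (2 * Real.exp (-2 * δ ^ 2)) ^ B.card := by
        rw [← Finset.prod_const]
        refine Finset.prod_le_prod (fun i _ => norm_nonneg _) fun i hi => ?_
        rw [hB, Finset.mem_filter, not_le] at hi
        refine (norm_one_add_ee_le _).trans ?_
        have h6 : δ ^ 2 ≤ nint (2 * k * BB A (seg y s t) {i}) ^ 2 :=
          pow_le_pow_left₀ hδ.le hi.2.le 2
        gcongr ?_ * Real.exp ?_
        linarith
      calc (∏ i ∈ G, ‖1 + ee (2 * k * BB A (seg y s t) {i})‖) *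
            ∏ i ∈ B, ‖1 + ee (2 * k * BB A (seg y s t) {i})‖
          ≤ 2 ^ G.card * (2 * Real.exp (-2 * δ ^ 2)) ^ B.card :=
            mul_le_mul h4 h5 (Finset.prod_nonneg fun i _ => norm_nonneg _) (by positivity)
        _ = 2 ^ Z.card * Real.exp (-(2 * δ ^ 2) * B.card) := by
            rw [mul_pow, ← mul_assoc, ← pow_add, h1, ← Real.exp_nat_mul]
            congr 2
            ring
    have h4 := hprod.trans h3
    have h5 : 1 / (8 * (K : ℝ) ^ 2) ≤ Real.exp (-(2 * δ ^ 2) * B.card) := by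
      have h6 : (2 : ℝ) ^ Z.card / (8 * K ^ 2) = 2 ^ Z.card * (1 / (8 * K ^ 2)) := by ring
      rw [h6] at h4
      exact le_of_mul_le_mul_left h4 (by positivity)
    have h6 : -Real.log (8 * K ^ 2) ≤ -(2 * δ ^ 2) * B.card := by
      rw [← Real.log_inv, ← Real.log_exp (-(2 * δ ^ 2) * B.card)]
      apply Real.log_le_log (by positivity)
      rw [← one_div]
      exact h5
    have h7 : (B.card : ℝ) ≤ Real.log (8 * K ^ 2) / (2 * δ ^ 2) := by
      rw [le_div_iff₀ (by positivity)]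
      linarith
    have h8 : (G.card : ℝ) + B.card = U.card - m := by
      rw [← Nat.cast_add, h1, h2, Nat.cast_sub hU]
    linarith
  · intro i hi
    exact (Finset.mem_filter.mp hi).2

end Pool.Agent.H252R3
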